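import Pool.Agent.MP_db5b97_nt.H66.Spec

/-! Assembling the arithmetic input. -/

namespace Pool.Agent.MP_db5b97_nt.H66

open NumberField Equiv H58 Polynomial

namespace ARx

theorem enum {E : Type} [Field E] {n : ℕ} {Q : E[X]} (hm : Q.Monic) (hs : Q.Splits)
    (hn : Q.natDegree = n) : ∃ a : Fin n → E, Q = ∏ j, (X - C (a j)) := by
  have h1 := hs.eq_prod_roots_of_monic hm
  have h2 := hs.natDegree_eq_card_roots
  obtain ⟨l, hl⟩ := Quot.exists_rep Q.roots
  have hl' : Q.roots = (l : Multiset E) := hl.symm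
  rw [hl', Multiset.coe_card, hn] at h2
  subst h2
  refine ⟨l.get, h1.trans ?_⟩
  rw [hl', Finset.prod_eq_multiset_prod, ← Function.comp_def (fun a => X - C a) l.get,
    ← Multiset.map_map, Fin.univ_val_map, List.ofFn_get]

theorem field (n : ℕ) (P : ℤ[X]) (hm : P.Monic) (hn : P.natDegree = n) :
    ∃ (E : IntermediateField ℚ Qb) (_ : NumberField E) (_ : IsGalois ℚ E) (A : Fin n → 𝓞 E),
      P.map (Int.castRingHom (𝓞 E)) = ∏ j, (X - C (A j)) ∧
      (∀ τ : E ≃ₐ[ℚ] E, (∀ j, τ • A j = A j) → τ = 1) ∧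
      ∀ (τ : E ≃ₐ[ℚ] E) j, ∃ k, τ • A j = A k := by
  obtain ⟨Q, hQ⟩ : ∃ Q, Q = P.map (Int.castRingHom ℚ) := ⟨_, rfl⟩
  have hs := IntermediateField.adjoin_rootSet_isSplittingField (K := ℚ) (L := Qb) (p := Q)
    (IsAlgClosed.splits _)
  generalize IntermediateField.adjoin ℚ (Q.rootSet Qb) = E at hs
  have hs' : IsSplittingField ℚ E Q := by exact hs
  have := IsSplittingField.finiteDimensional E Q
  have := Normal.of_isSplittingField (F := ℚ) (E := E) Q
  have nf : NumberField E := {}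
  have e1 : Q.map (algebraMap ℚ E) = P.map (Int.castRingHom E) := by
    rw [hQ, Polynomial.map_map]
    congr 1
  obtain ⟨a, ha⟩ := enum (hm.map (Int.castRingHom E)) (e1 ▸ IsSplittingField.splits E Q)
    ((hm.natDegree_map _).trans hn)
  have rt : ∀ b : E, eval₂ (Int.castRingHom E) b P = 0 ↔ ∃ k, b = a k := fun b => by
    rw [← eval_map, ha, eval_prod, Finset.prod_eq_zero_iff]
    simp [sub_eq_zero]
  refine ⟨E, nf, {}, fun j => ⟨a j, P, hm, (rt _).2 ⟨j, rfl⟩⟩, ?_, fun τ h => ?_,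
    fun τ j => ?_⟩
  · refine map_injective (algebraMap (𝓞 E) E) RingOfIntegers.coe_injective ?_
    rw [Polynomial.map_map, RingHom.ext_int (RingHom.comp _ _) (Int.castRingHom E), ha,
      Polynomial.map_prod]
    refine Finset.prod_congr rfl fun j _ => ?_
    rw [Polynomial.map_sub, map_X]
    exact congrArg _ (map_C (a := ⟨a j, P, hm, (rt _).2 ⟨j, rfl⟩⟩) (algebraMap (𝓞 E) E)).symm
  · refine AlgEquiv.coe_toAlgHom_injective (AlgHom.ext_of_adjoin_eq_top
      (IsSplittingField.adjoin_rootSet E Q) fun b hb => ?_)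
    have := (mem_rootSet'.1 hb).2
    rw [aeval_def, ← eval_map, e1, eval_map] at this
    obtain ⟨k, rfl⟩ := (rt b).1 this
    exact congrArg (algebraMap (𝓞 E) E) (h k)
  · have := hom_eval₂ P (Int.castRingHom E) (τ : E →+* E) (a j)
    rw [(rt _).2 ⟨j, rfl⟩, map_zero, RingHom.ext_int (RingHom.comp _ _) (Int.castRingHom E)]
      at this
    obtain ⟨k, hk⟩ := (rt _).1 this.symm
    exact ⟨k, RingOfIntegers.coe_injective hk⟩

end ARx

theorem rowAR : RowAR := by
  classical
  intro hFF hCRT hPL hJOR hVAL n I _ g hn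
  obtain ⟨p, pi, pp, pn⟩ : ∃ p : I ⊕ Perm (Fin n) → ℕ, Function.Injective p ∧
      (∀ i, (p i).Prime) ∧ ∀ i, n ≤ p i :=
    ⟨fun i => Nat.nth Nat.Prime (n + Fintype.equivFin _ i), fun a b h => by
      have := Nat.nth_injective Nat.infinite_setOfPred_prime h
      exact (Fintype.equivFin _).injective (Fin.ext (by omega)), fun i => Nat.prime_nth_prime _,
      fun i => (Nat.le_add_right _ _).trans ((Nat.le_add_right _ 2).trans
        (Nat.add_two_le_nth_prime (n + Fintype.equivFin _ i)))⟩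
  have : ∀ i, Fact (p i).Prime := fun i => ⟨pp i⟩
  choose x x1 x2 using fun i => hFF n (p i) (Sum.elim g id i) (pn i)
  obtain ⟨P, hm, hd, hP⟩ := hCRT n _ p (Sum.elim g id) x pi x2
  obtain ⟨E, _, _, A, a1, a2, a3⟩ := ARx.field n P hm hd
  have h := fun i => hPL n (p i) E P A _ (x i) (x1 i) (x2 i) (hP i) a1 a2
  have ai := (h (.inr 1)).1
  choose W σ e w1 w2 w3 w4 w5 using fun i => (h i).2
  choose f hf using a3
  have fi : ∀ τ, Function.Injective (f τ) := fun τ a b hab =>
    ai (MulAction.injective τ (by simp only [hf, hab]))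
  obtain ⟨π₀, hπ⟩ : ∃ π₀ : (E ≃ₐ[ℚ] E) →* Perm (Fin n), ∀ τ j, τ • A j = A (π₀ τ j) :=
    ⟨MonoidHom.mk' (fun τ => Equiv.ofBijective (f τ) (Finite.injective_iff_bijective.1 (fi τ)))
      fun a b => Equiv.ext fun j => ai (by
        change A (f (a * b) j) = A (f a (f b j))
        rw [← hf, ← hf, ← hf, mul_smul]), hf⟩
  have s1 : ∀ i, π₀ (σ i) = e i * Sum.elim g id i * (e i)⁻¹ := fun i =>
    Equiv.ext fun j => ai (by rw [← hπ, w4])
  have su : Function.Surjective π₀ := MonoidHom.range_eq_top.1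
    (hJOR _ _ fun c => ⟨e (.inr c), σ (.inr c), s1 _⟩)
  have inj : Function.Injective π₀ := (injective_iff_map_eq_one _).2 fun τ ht =>
    a2 τ fun j => by rw [hπ, ht, Perm.one_apply]
  obtain ⟨w, u, v1, v2, v3, v4, v5, v6, v7⟩ := hVAL E _ p W σ pi pp w1 w2 w3 w5
  obtain ⟨ψ, hψ⟩ := su.hasRightInverse
  have rs := AlgEquiv.restrictNormalHom_surjective (F := ℚ) (K₁ := E) Qb
  choose s hs using fun i : I => rs (ψ (g i))
  have ra : ∀ (τ : Ga) (a : E), τ a = AlgEquiv.restrictNormalHom E τ a := fun τ a =>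
    (AlgEquiv.restrictNormal_commutes τ E a).symm
  have mem : ∀ a : Qb, (∀ τ, (π₀.comp (AlgEquiv.restrictNormalHom E)) τ = 1 → τ a = a) →
      a ∈ E := fun a ha => by
    rw [← InfiniteGalois.fixedField_fixingSubgroup E, IntermediateField.mem_fixedField_iff]
    intro τ ht
    have e0 : AlgEquiv.restrictNormalHom E τ = 1 := AlgEquiv.ext fun b => Subtype.ext
      ((ra τ b).symm.trans ((IntermediateField.mem_fixingSubgroup_iff _ _).1 ht b b.2))
    exact ha τ (by rw [MonoidHom.comp_apply, e0, map_one])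
  have zp : ∀ i c, ψ (e (.inl i)) * ψ (c * (e (.inl i))⁻¹) ∈ Subgroup.zpowers (σ (.inl i)) ↔
      c ∈ Subgroup.zpowers (g i) := fun i c => by
    refine exists_congr fun k => ?_
    simp only
    rw [← inj.eq_iff, map_zpow, s1, map_mul, hψ, hψ, conj_zpow, mul_assoc, mul_right_inj,
      mul_left_inj, Sum.elim_inl]
  refine ⟨fun j => ((A j : E) : Qb), π₀.comp (AlgEquiv.restrictNormalHom E), s,
    fun i a => if h : a ∈ E then w (.inl i) (ψ (e (.inl i)) ⟨a, h⟩) else 0,
    fun i c => u (.inl i) (ψ (c * (e (.inl i))⁻¹)),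
    fun a b hab => ai (RingOfIntegers.coe_injective (Subtype.ext hab)), fun j hj => ?_,
    fun τ j => ?_, fun i => ?_, fun i a b ha hb fa fb => ?_, fun i a fa => ?_,
    fun i c hc => v3 _ _ (Subtype.ext hc), fun i c => ?_, fun i c τ => ?_, fun i c hc => ?_,
    fun i k c hc => ?_⟩
  · have : Nontrivial (Fin n) := Fin.nontrivial_iff_two_le.2 hn
    obtain ⟨k, hk⟩ := exists_ne j
    have e0 : A j = 0 := RingOfIntegers.coe_injective (Subtype.ext hj)
    have := hπ (ψ (swap j k)) j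
    rw [hψ, swap_apply_left, e0, smul_zero, ← e0] at this
    exact hk (ai this).symm
  · exact (ra _ _).trans (congrArg (fun a : 𝓞 E => ((a : E) : Qb))
      (hπ (AlgEquiv.restrictNormalHom E τ) j))
  · rw [MonoidHom.comp_apply, hs, hψ]
  · have ma := mem a fa
    have mb := mem b fb
    simp only [dif_pos ma, dif_pos mb, dif_pos (mul_mem ma mb)]
    rw [← v1 _ _ _ ((_root_.map_ne_zero _).2 fun h => ha (congrArg Subtype.val h))
      ((_root_.map_ne_zero _).2 fun h => hb (congrArg Subtype.val h)), ← map_mul]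
    rfl
  · have ma := mem a fa
    have e1 : s i a = (ψ (g i) ⟨a, ma⟩ : E) := by rw [← hs, ← ra]
    have e2 : ψ (e (.inl i)) * ψ (g i) = σ (.inl i) * ψ (e (.inl i)) := inj (by
      rw [map_mul, map_mul, s1, hψ, hψ, inv_mul_cancel_right, Sum.elim_inl])
    simp only [e1, dif_pos ma, SetLike.coe_mem, dif_pos, Subtype.coe_eta]
    rw [← AlgEquiv.mul_apply, e2, AlgEquiv.mul_apply, v2]
  · beta_reduce
    rw [← v4 _ (ψ (c * (e (.inl i))⁻¹))]
    congr 2
    exact inj (by rw [map_mul, s1, hψ, hψ, Sum.elim_inl]; group)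
  · beta_reduce
    rw [ra, v5]
    congr 2
    exact inj (by rw [map_mul, hψ, hψ, MonoidHom.comp_apply, mul_assoc])
  · simp only [SetLike.coe_mem, dif_pos, Subtype.coe_eta]
    rw [v5, v6 _ _ ((zp i c).2 hc)]
  · simp only [SetLike.coe_mem, dif_pos, Subtype.coe_eta]
    rw [v5]
    by_cases hik : i = k
    · subst hik
      exact v7 _ _ _ (.inr fun h => (hc.resolve_left fun h => h rfl) ((zp i c).1 h))
    · exact v7 _ _ _ (.inl fun h => hik (Sum.inl_injective h))

end Pool.Agent.MP_db5b97_nt.H66
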