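import Pool.Agent.MP_db5b97_nt.H66.Spec

/-! Choosing the characters. -/

namespace Pool.Agent.MP_db5b97_nt.H66

open Equiv

namespace RCH

theorem sep {X : Type} [Fintype X] (K : AddSubgroup (X → ℤ)) (z : X → ℤ) (hz : z ∉ K) :
    ∃ (D : ℕ) (ϑ : X → ℤ), 0 < D ∧ (∀ y ∈ K, (D : ℤ) ∣ ∑ x, ϑ x * y x) ∧
      ¬ (D : ℤ) ∣ ∑ x, ϑ x * z x := by
  classical
  have h0 : (QuotientAddGroup.mk z : (X → ℤ) ⧸ K) ≠ 0 := by
    rwa [Ne, QuotientAddGroup.eq_zero_iff]
  obtain ⟨χ, hχ⟩ := CharacterModule.exists_character_apply_ne_zero_of_ne_zero h0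
  let χ' : ((X → ℤ) ⧸ K) →+ AddCircle (1 : ℚ) := χ
  let ψ : (X → ℤ) →+ AddCircle (1 : ℚ) := χ'.comp (QuotientAddGroup.mk' K)
  have hψz : ψ z ≠ 0 := hχ
  have hψK : ∀ y ∈ K, ψ y = 0 := fun y hy => by
    have : (QuotientAddGroup.mk' K) y = 0 := (QuotientAddGroup.eq_zero_iff y).2 hy
    simp only [ψ, AddMonoidHom.comp_apply, this, map_zero]
  have hq : ∀ x, ∃ q : ℚ, (q : AddCircle (1 : ℚ)) = ψ (Pi.single x 1) := fun x =>
    QuotientAddGroup.mk_surjective _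
  choose q hq using hq
  have hψ : ∀ y : X → ℤ, ψ y = ((∑ x, q x * y x : ℚ) : AddCircle (1 : ℚ)) := fun y => by
    have e1 : y = ∑ x, y x • (Pi.single x 1 : X → ℤ) := by
      funext l
      simp [Finset.sum_apply, Pi.single_apply]
    have e2 : ((∑ x, q x * y x : ℚ) : AddCircle (1 : ℚ)) =
        QuotientAddGroup.mk' _ (∑ x, y x • q x) := by
      rw [QuotientAddGroup.mk'_apply]
      refine congrArg _ (Finset.sum_congr rfl fun x _ => ?_)
      rw [zsmul_eq_mul, mul_comm]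
    rw [e2, map_sum]
    conv_lhs => rw [e1, map_sum]
    refine Finset.sum_congr rfl fun x _ => ?_
    rw [map_zsmul, map_zsmul, ← hq x, QuotientAddGroup.mk'_apply]
  have hD : 0 < ∏ x, (q x).den := Finset.prod_pos fun x _ => (q x).den_pos
  have hϑ : ∀ x, ∃ t : ℤ, (t : ℚ) = (∏ x, (q x).den : ℕ) * q x := fun x => by
    obtain ⟨c, hc⟩ := Finset.dvd_prod_of_mem (fun x => (q x).den) (Finset.mem_univ x)
    refine ⟨c * (q x).num, ?_⟩
    rw [hc]
    push_cast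
    rw [← Rat.mul_den_eq_num (q x)]
    ring
  choose ϑ hϑ using hϑ
  have key : ∀ y : X → ℤ, ψ y = 0 ↔ ((∏ x, (q x).den : ℕ) : ℤ) ∣ ∑ x, ϑ x * y x := fun y => by
    have hD' : ((∏ x, (q x).den : ℕ) : ℚ) ≠ 0 := Nat.cast_ne_zero.2 hD.ne'
    have e : ((∑ x, ϑ x * y x : ℤ) : ℚ) = (∏ x, (q x).den : ℕ) * ∑ x, q x * y x := by
      rw [Int.cast_sum, Finset.mul_sum]
      refine Finset.sum_congr rfl fun x _ => ?_
      rw [Int.cast_mul, hϑ, mul_assoc]
    rw [hψ, AddCircle.coe_eq_zero_iff]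
    constructor
    · rintro ⟨n, hn⟩
      refine ⟨n, Int.cast_injective (α := ℚ) ?_⟩
      rw [e, ← hn, Int.cast_mul, Int.cast_natCast, zsmul_eq_mul, mul_one]
    · rintro ⟨n, hn⟩
      refine ⟨n, mul_left_cancel₀ hD' ?_⟩
      rw [← e, hn, Int.cast_mul, Int.cast_natCast, zsmul_eq_mul, mul_one]
  exact ⟨_, ϑ, hD, fun y hy => (key y).1 (hψK y hy), fun h => hψz ((key z).2 h)⟩

theorem comp_pow {X : Type} (M : AddSubgroup (X → ℤ)) (g : Perm X)
    (hg : ∀ y ∈ M, y ∘ g ∈ M) (k : ℕ) : ∀ y ∈ M, y ∘ ⇑(g ^ k) ∈ M := by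
  induction k with
  | zero => intro y hy; simpa using hy
  | succ k ih =>
    intro y hy
    have := hg _ (ih y hy)
    rwa [pow_succ, Perm.coe_mul, ← Function.comp_assoc]

/-- the stabiliser -/
def stab {X : Type} [Fintype X] [DecidableEq X] (M : AddSubgroup (X → ℤ)) :
    Subgroup (Perm X) where
  carrier := {c | ∀ y ∈ M, y ∘ c ∈ M}
  one_mem' := fun y hy => by simpa using hy
  mul_mem' := fun {a b} ha hb y hy => by
    have := hb _ (ha y hy)
    rwa [Perm.coe_mul, ← Function.comp_assoc]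
  inv_mem' := fun {a} ha y hy => by
    have e : a⁻¹ = a ^ (orderOf a - 1) := by
      rw [inv_eq_iff_mul_eq_one, ← pow_succ', Nat.sub_add_cancel (orderOf_pos a),
        pow_orderOf_eq_one]
    rw [e]
    exact comp_pow M a ha _ y hy

theorem tele {X : Type} [Fintype X] [DecidableEq X] (g : Perm X) (m y : X → ℤ) (e : ℕ)
    (he : 0 < e) (h : e • m = y ∘ g - y) :
    ∑ k ∈ Finset.range (orderOf g), m ∘ (g ^ k).symm = 0 := by
  funext x
  have h1 : ∀ k, g ((g ^ (k + 1)).symm x) = (g ^ k).symm x := fun k => by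
    rw [Equiv.eq_symm_apply, ← Perm.mul_apply, ← pow_succ, Equiv.apply_symm_apply]
  have h2 : ∀ k, (e : ℤ) * m ((g ^ k).symm x) =
      y (g ((g ^ k).symm x)) - y (g ((g ^ (k + 1)).symm x)) := fun k => by
    have := congrFun h ((g ^ k).symm x)
    simp only [Pi.smul_apply, nsmul_eq_mul, Pi.sub_apply, Function.comp_apply] at this
    rw [h1, this]
  have h3 : (e : ℤ) * ∑ k ∈ Finset.range (orderOf g), m ((g ^ k).symm x) = 0 := by
    rw [Finset.mul_sum, Finset.sum_congr rfl fun k _ => h2 k,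
      Finset.sum_range_sub' fun k => y (g ((g ^ k).symm x)), pow_orderOf_eq_one, pow_zero,
      sub_self]
  have h4 := (mul_eq_zero.1 h3).resolve_left (Nat.cast_ne_zero.2 he.ne')
  simpa [Finset.sum_apply] using h4

end RCH

theorem rowCH : RowCH := by
  classical
  intro hC N M S hN hM hS
  have hI : ∀ i : {i // i ∈ Finset.Ioo 0 (S.lcm id)},
      ∃ (g : RCH.stab M) (m : Fin (N + 1) → ℤ) (D : ℕ) (ϑ : Fin (N + 1) → ℤ), m ∈ M ∧
        (∃ o ≠ 0, ∑ k ∈ Finset.range o, m ∘ ((g : Perm (Fin (N + 1))) ^ k).symm = 0) ∧ 0 < D ∧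
        (∀ y ∈ M, (D : ℤ) ∣ ∑ x, ϑ x * (y ((g : Perm (Fin (N + 1))) x) - y x)) ∧
        ¬ (D : ℤ) ∣ (i : ℕ) * ∑ x, ϑ x * m x := by
    rintro ⟨i, hi⟩
    rw [Finset.mem_Ioo] at hi
    have : ∃ e ∈ S, ¬ e ∣ i := by
      by_contra hc
      have h1 : S.lcm id ∣ i := Finset.lcm_dvd fun e he => by
        by_contra h
        exact hc ⟨e, he, h⟩
      exact absurd (Nat.le_of_dvd hi.1 h1) (not_le.2 hi.2)
    obtain ⟨e, heS, he⟩ := this
    obtain ⟨he0, g, hg, m, hm, hc⟩ := hS e heS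
    let φ : (Fin (N + 1) → ℤ) →+ (Fin (N + 1) → ℤ) :=
      { toFun := fun y => y ∘ g - y
        map_zero' := by funext x; simp
        map_add' := fun a b => by funext x; simp; ring }
    have hz : i • m ∉ M.map φ := by
      rintro ⟨y, hy, hy'⟩
      exact he ((hc i).1 ⟨y, hy, hy'.symm⟩)
    obtain ⟨D, ϑ, hD, hK, hz'⟩ := RCH.sep _ _ hz
    obtain ⟨y, -, hy⟩ := (hc e).2 dvd_rfl
    refine ⟨⟨g, hg⟩, m, D, ϑ, hm, ⟨orderOf g, (orderOf_pos g).ne', RCH.tele g m y e he0 hy⟩, hD,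
      fun y hy => hK (φ y) ⟨y, hy, rfl⟩, fun h => hz' ?_⟩
    have e1 : ∑ x, ϑ x * (i • m) x = (i : ℕ) * ∑ x, ϑ x * m x := by
      rw [Finset.mul_sum]
      refine Finset.sum_congr rfl fun x _ => ?_
      simp only [Pi.smul_apply, nsmul_eq_mul]
      ring
    rw [e1]
    exact h
  choose g m D ϑ hm ho hD hK hz using hI
  obtain ⟨B, hB0, hB⟩ : ∃ B : ℕ, 0 < B ∧ ∀ i x, |m i x| ≤ B := by
    refine ⟨(∑ i, ∑ x, (m i x).natAbs) + 1, Nat.succ_pos _, fun i x => ?_⟩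
    have h1 : (m i x).natAbs ≤ ∑ x, (m i x).natAbs :=
      Finset.single_le_sum (f := fun x => (m i x).natAbs) (fun _ _ => Nat.zero_le _)
        (Finset.mem_univ x)
    have h2 : ∑ x, (m i x).natAbs ≤ ∑ i, ∑ x, (m i x).natAbs :=
      Finset.single_le_sum (f := fun i => ∑ x, (m i x).natAbs) (fun _ _ => Nat.zero_le _)
        (Finset.mem_univ i)
    rw [← Int.natCast_natAbs]
    exact Int.ofNat_le.2 ((h1.trans h2).trans (Nat.le_succ _))
  have hP : 0 < ∏ i, D i := Finset.prod_pos fun i _ => hD i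
  have hR : ∀ i, ∃ R : ℕ, (∏ i, D i) * B = D i * R := fun i =>
    (Finset.dvd_prod_of_mem D (Finset.mem_univ i)).mul_right B
  choose R hR using hR
  have hR0 : ∀ i, (R i : ℤ) ≠ 0 := fun i h => by
    have := hR i
    rw [Nat.cast_eq_zero.1 h, mul_zero] at this
    exact (Nat.mul_pos hP hB0).ne' this
  have hs : ∀ i (y : Fin (N + 1) → ℤ), ∑ x, ϑ i x * R i * y x = (∑ x, ϑ i x * y x) * R i :=
    fun i y => by
      rw [Finset.sum_mul]
      exact Finset.sum_congr rfl fun x _ => by ring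
  refine hC N ((∏ i, D i) * B) _ _ (RCH.stab M) g m (fun i x => ϑ i x * R i) hN
    (Nat.mul_pos hP hB0) (fun i x => (hB i x).trans ?_) (fun i => hM _ (hm i)) ho
    (fun i k c hc => ?_) (fun k hk h => ?_)
  · exact Int.ofNat_le.2 (Nat.le_mul_of_pos_left B hP)
  · rw [hR i, hs i fun x => m k (c ((g i : Perm (Fin (N + 1))) x)) - m k (c x), Nat.cast_mul]
    exact mul_dvd_mul_right (hK i (m k ∘ c) (hc _ (hm k))) _
  · by_contra hlt
    have hk' : k ∈ Finset.Ioo 0 (S.lcm id) :=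
      Finset.mem_Ioo.2 ⟨Nat.pos_of_ne_zero hk, not_le.1 hlt⟩
    have h1 := h ⟨k, hk'⟩
    rw [hR ⟨k, hk'⟩, hs, Nat.cast_mul, ← mul_assoc, mul_dvd_mul_iff_right (hR0 _)] at h1
    exact hz ⟨k, hk'⟩ h1

end Pool.Agent.MP_db5b97_nt.H66
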