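import Pool.Agent.MP_db5b97_nt.H66.Spec

/-! Monomial conjugation. -/

namespace Pool.Agent.MP_db5b97_nt.H66

open MvPolynomial Matrix NumberField Equiv H58 H31

theorem rowCONJ : RowCONJ := by
  intro N f f' κ t ht h
  let P : Matrix (Fin (N + 1)) (Fin (N + 1)) Qb := .of fun i j => if j = κ.symm i then t j else 0
  have hQ : ∀ x, P *ᵥ x = fun l => t (κ.symm l) * x (κ.symm l) := fun x => by
    funext l
    simp [P, mulVec, dotProduct]
  have hP : ∀ x j, (P *ᵥ x) (κ j) = t j * x j := fun x j => by simp [hQ]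
  have hU : IsUnit P := mulVec_injective_iff_isUnit.mp fun x y hxy => funext fun j =>
    mul_left_cancel₀ (ht j) (by rw [← hP, ← hP, hxy])
  refine ⟨hU.unit, fun i => MvPolynomial.funext fun x => ?_⟩
  refine congrFun (Eq.trans (b := _) ?_ (eval_conj hU.unit f x).symm :
    (fun i => eval x (f' i)) = _) i
  refine mulVec_injective_iff_isUnit.mpr hU ?_
  rw [mulVec_mulVec _ P hU.unit⁻¹.val, IsUnit.mul_val_inv, one_mulVec, IsUnit.unit_spec]
  funext j
  obtain ⟨j, rfl⟩ := κ.surjective j
  rw [hP, hQ]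
  exact h x j

end Pool.Agent.MP_db5b97_nt.H66
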