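import Pool.Agent.MP_db5b97_nt.H66.Spec

/-! An integral polynomial with prescribed reductions. -/

namespace Pool.Agent.MP_db5b97_nt.H66

open Polynomial

namespace CRT

theorem coeff_int {n p : ℕ} [Fact p.Prime] (K : Type) [Field K] [CharP K p]
    (g : Equiv.Perm (Fin n)) (x : Fin n → K) (h : ∀ j, x (g j) = x j ^ p) (k : ℕ) :
    ∃ z : ℤ, (z : K) = (∏ j, (X - C (x j)) : K[X]).coeff k := by
  rw [← mem_bot_iff_intCast p K, Subfield.mem_bot_iff_pow_eq_self K p]
  have e : (∏ j, (X - C (x j)) : K[X]).map (frobenius K p) = ∏ j, (X - C (x j)) := by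
    rw [Polynomial.map_prod, ← Equiv.prod_comp g fun j => (X - C (x j) : K[X])]
    refine Finset.prod_congr rfl fun j _ => ?_
    rw [Polynomial.map_sub, map_X, map_C, frobenius_def, h]
  have e2 := congrArg (fun Q : K[X] => Q.coeff k) e
  simpa only [coeff_map, frobenius_def] using e2

theorem crt {I : Type} [Fintype I] (p : I → ℕ) [∀ i, Fact (p i).Prime]
    (hp : Function.Injective p) (z : I → ℤ) : ∃ r : ℤ, ∀ i, (p i : ℤ) ∣ r - z i := by
  have hI : Pairwise (Function.onFun IsCoprime fun i => Ideal.span {(p i : ℤ)}) := by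
    intro i j hij
    rw [Function.onFun, Ideal.isCoprime_span_singleton_iff, Nat.isCoprime_iff_coprime]
    exact (Nat.coprime_primes Fact.out Fact.out).2 fun e => hij (hp e)
  obtain ⟨r, hr⟩ := Ideal.exists_forall_sub_mem_ideal hI z
  exact ⟨r, fun i => Ideal.mem_span_singleton.1 (hr i)⟩

end CRT

theorem rowCRT : RowCRT := by
  intro n I _ p _ g x hp hx
  choose z hz using fun i k => CRT.coeff_int (AlgebraicClosure (ZMod (p i))) (g i) (x i) (hx i) k
  choose r hr using fun k => CRT.crt p hp fun i => z i k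
  have hd : (∑ k : Fin n, C (r k) * X ^ (k : ℕ) : ℤ[X]).degree < n := degree_sum_fin_lt _
  have hm : (X ^ n + ∑ k : Fin n, C (r k) * X ^ (k : ℕ) : ℤ[X]).Monic := monic_X_pow_add hd
  refine ⟨X ^ n + ∑ k : Fin n, C (r k) * X ^ (k : ℕ), hm, ?_, fun i => ?_⟩
  · rw [natDegree_add_eq_left_of_degree_lt (by rwa [degree_X_pow]), natDegree_X_pow]
  · set Q : (AlgebraicClosure (ZMod (p i)))[X] := ∏ j, (X - C (x i j)) with hQ
    have hQm : Q.Monic := monic_prod_of_monic _ _ fun j _ => monic_X_sub_C _
    have hQd : Q.natDegree = n := by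
      rw [hQ, natDegree_prod_of_monic _ _ fun j _ => monic_X_sub_C _]
      simp
    rw [hQm.as_sum, hQd, Polynomial.map_add, Polynomial.map_pow, map_X, Polynomial.map_sum,
      Finset.sum_range]
    refine congrArg _ (Finset.sum_congr rfl fun k _ => ?_)
    rw [Polynomial.map_mul, Polynomial.map_pow, map_X, map_C, ← hz i k]
    congr 2
    have := (CharP.intCast_eq_zero_iff (AlgebraicClosure (ZMod (p i))) (p i) _).2 (hr k i)
    rw [Int.cast_sub, sub_eq_zero] at this
    simpa using this

end Pool.Agent.MP_db5b97_nt.H66
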