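import Pool.Agent.MP_db5b97_nt.H66.Spec

/-! Descent data from a field of definition. -/

namespace Pool.Agent.MP_db5b97_nt.H66

open MvPolynomial Matrix H58 H31

theorem rowDESC : RowDESC := by
  intro N f L φ c hc h τ hτ
  let g : (Fin (N + 1) → Qb) → Fin (N + 1) → Qb := fun x i => eval x (C c * conj φ f i)
  have hg : ∀ x, g x = c • φ⁻¹.val *ᵥ fun j => eval (φ.val *ᵥ x) (f j) := fun x => by
    rw [← eval_conj]
    funext i
    simp [g]
  have he : ∀ (p : MvPolynomial (Fin (N + 1)) Qb) (x : Fin (N + 1) → Qb),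
      τ (eval x p) = eval (fun i => τ (x i)) (MvPolynomial.map (τ : Qb →+* Qb) p) :=
    fun p x => by
      rw [eval_map]
      exact eval₂_comp (τ : Qb →+* Qb) x _
  have hτg : ∀ x, (fun i => τ (g x i)) = g fun i => τ (x i) := fun x => funext fun i => by
    have h1 : MvPolynomial.map (τ : Qb →+* Qb) (C c * conj φ f i) = C c * conj φ f i := by
      ext m
      rw [coeff_map]
      exact (L.mem_fixingSubgroup_iff τ).mp hτ _ (h i m)
    simp only [g]
    rw [he, h1]
  have hm : ∀ (P : Matrix (Fin (N + 1)) (Fin (N + 1)) Qb) (v : Fin (N + 1) → Qb),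
      (fun i => τ ((P *ᵥ v) i)) = P.map τ *ᵥ fun i => τ (v i) := fun P v => by
    funext i
    simp [mulVec, dotProduct]
  refine ⟨φ.val.map τ * φ⁻¹.val, τ c / c,
    (φ.isUnit.map (τ : Qb →+* Qb).mapMatrix).mul φ⁻¹.isUnit, ?_, fun w => ?_⟩
  · rw [mul_assoc, Units.inv_mul, mul_one]
  · obtain ⟨x, hx⟩ : ∃ x : Fin (N + 1) → Qb, (fun i => τ (x i)) = φ⁻¹.val *ᵥ w :=
      ⟨fun i => τ.symm _, funext fun i => τ.apply_symm_apply _⟩
    have h3 : φ.val *ᵥ g x = c • fun j => eval (φ.val *ᵥ x) (f j) := by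
      rw [hg, mulVec_smul, mulVec_mulVec, Units.mul_inv, one_mulVec]
    have h4 := hm φ.val (g x)
    rw [h3, hτg, hx, hg, mulVec_mulVec w, Units.mul_inv, one_mulVec, mulVec_smul,
      mulVec_mulVec] at h4
    rw [div_eq_inv_mul, mul_smul, eq_inv_smul_iff₀ hc, ← h4, ← mulVec_mulVec w, ← hx, ← hm]
    funext i
    simp only [Pi.smul_apply, smul_eq_mul, map_mul, he]

end Pool.Agent.MP_db5b97_nt.H66
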