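import Pool.Agent.MP_db5b97_nt.H66.Spec

/-! Equivariance of the map under a monomial substitution. -/

namespace Pool.Agent.MP_db5b97_nt.H66

open MvPolynomial Equiv H58 H31

namespace EQVx

theorem pw (t : Qb) (r : ℕ) (z : ℤ) (h0 : t ≠ 0) (hr : t ^ r = 1) (hz : 1 ≤ (r : ℤ) + z) :
    t * t ^ ((r : ℤ) - 1 + z).toNat = t ^ z := by
  have e1 : ((((r : ℤ) - 1 + z).toNat + 1 : ℕ) : ℤ) = r + z := by
    push_cast
    rw [Int.toNat_of_nonneg (by omega)]
    ring
  rw [← pow_succ', ← zpow_natCast, e1, zpow_add₀ h0, zpow_natCast, hr, one_mul]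

end EQVx

theorem rowEQV : RowEQV := by
  intro ι _ r d B a a' A κ t hB hκ t0 tr td ha w j
  have key : (∏ l, w l) * ∑ y ∈ B, a' y * ∏ x, w x ^ ((r : ℤ) - 1 + y x).toNat =
      (∏ l, t (κ.symm l) * w (κ.symm l)) *
        ∑ y ∈ B, a y * ∏ x, (t (κ.symm x) * w (κ.symm x)) ^ ((r : ℤ) - 1 + y x).toNat := by
    rw [Finset.mul_sum, Finset.mul_sum]
    refine Finset.sum_bij' (fun y _ => y ∘ κ.symm) (fun y _ => y ∘ κ) (fun y hy => (hκ y).1 hy)
      (fun y hy => (hκ _).2 ?_) (fun y _ => ?_) (fun y _ => ?_) (fun y hy => ?_)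
    · have : (y ∘ κ) ∘ κ.symm = y := by
        funext x
        simp
      rwa [this]
    · funext x
      simp
    · funext x
      simp
    · have e1 : ∏ l, t (κ.symm l) * w (κ.symm l) = ∏ l, t l * w l :=
        Equiv.prod_comp κ.symm fun l => t l * w l
      have e2 : ∏ x, (t (κ.symm x) * w (κ.symm x)) ^ ((r : ℤ) - 1 + (y ∘ κ.symm) x).toNat =
          ∏ x, (t x * w x) ^ ((r : ℤ) - 1 + y x).toNat :=
        Equiv.prod_comp κ.symm fun x => (t x * w x) ^ ((r : ℤ) - 1 + y x).toNat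
      have e3 : zp t y = (∏ x, t x) * ∏ x, t x ^ ((r : ℤ) - 1 + y x).toNat := by
        rw [← Finset.prod_mul_distrib]
        exact Finset.prod_congr rfl fun x _ => (EQVx.pw _ r _ (t0 x) (tr x) (hB y hy x)).symm
      rw [e1, e2, ha y hy, e3]
      simp only [mul_pow, Finset.prod_mul_distrib]
      ring
  simp only [sh, KK, map_add, map_mul, map_pow, map_prod, map_sum, eval_C, eval_X,
    Equiv.symm_apply_apply]
  rw [key, mul_pow, td j]
  ring

end Pool.Agent.MP_db5b97_nt.H66
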