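import Pool.Agent.MP_db5b97_nt.H66.Spec

/-! The example in dimension five. -/

namespace Pool.Agent.MP_db5b97_nt.H66

open Equiv

namespace REX

/-- the lattice -/
def M : AddSubgroup (Fin (5 + 1) → ℤ) where
  carrier := {y | y 0 + y 1 + y 2 + y 3 + y 4 + y 5 = 0 ∧ 2 ∣ y 0 + y 1 ∧ 2 ∣ y 2 + y 3 ∧
    2 ∣ y 1 + y 3 + y 5}
  zero_mem' := by simp
  add_mem' := by
    intro a b ha hb
    simp only [Set.mem_ofPred_eq, Pi.add_apply] at ha hb ⊢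
    omega
  neg_mem' := by
    intro a ha
    simp only [Set.mem_ofPred_eq, Pi.neg_apply] at ha ⊢
    omega

theorem mem (y : Fin (5 + 1) → ℤ) : y ∈ M ↔ y 0 + y 1 + y 2 + y 3 + y 4 + y 5 = 0 ∧
    2 ∣ y 0 + y 1 ∧ 2 ∣ y 2 + y 3 ∧ 2 ∣ y 1 + y 3 + y 5 := Iff.rfl

/-- the element of order four -/
def g4 : Perm (Fin (5 + 1)) := ⟨![5, 4, 3, 2, 0, 1], ![4, 5, 3, 2, 1, 0], by decide, by decide⟩

/-- the element of order three -/
def g3 : Perm (Fin (5 + 1)) := ⟨![2, 3, 4, 5, 0, 1], ![4, 5, 0, 1, 2, 3], by decide, by decide⟩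

theorem eq6 {a b : Fin (5 + 1) → ℤ} : a = b ↔
    a 0 = b 0 ∧ a 1 = b 1 ∧ a 2 = b 2 ∧ a 3 = b 3 ∧ a 4 = b 4 ∧ a 5 = b 5 := by
  refine ⟨fun h => by simp [h], fun ⟨h0, h1, h2, h3, h4, h5⟩ => funext fun i => ?_⟩
  fin_cases i <;> assumption

end REX

open REX in
theorem rowEX : RowEX := by
  intro h
  refine h 5 M {3, 4} (by norm_num) (fun y hy => by
    rw [Fin.sum_univ_six]
    exact hy.1) fun e he => ?_
  rcases Finset.mem_insert.1 he with rfl | he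
  · refine ⟨by norm_num, g3, fun y hy => ?_, ![1, 1, -1, -1, 0, 0], by simp [mem], fun c =>
      ⟨fun ⟨y, hy, e⟩ => ?_, fun ⟨k, hk⟩ => ⟨![-k, -k, 2 * k, 2 * k, -k, -k], ?_, ?_⟩⟩⟩
    · rw [mem] at hy ⊢
      change y 2 + y 3 + y 4 + y 5 + y 0 + y 1 = 0 ∧ 2 ∣ y 2 + y 3 ∧ 2 ∣ y 4 + y 5 ∧
        2 ∣ y 3 + y 5 + y 1
      omega
    · rw [mem] at hy
      simp [eq6, g3] at e
      omega
    · simp [mem]
      omega
    · subst hk
      funext i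
      fin_cases i <;> simp [g3] <;> ring
  · obtain rfl := Finset.mem_singleton.1 he
    refine ⟨by norm_num, g4, fun y hy => ?_, ![0, 0, 1, -1, 1, -1], by simp [mem], fun c =>
      ⟨fun ⟨y, hy, e⟩ => ?_, fun ⟨k, hk⟩ =>
        ⟨![2 * k, -(2 * k), -(2 * k), 2 * k, -(2 * k), 2 * k], ?_, ?_⟩⟩⟩
    · rw [mem] at hy ⊢
      change y 5 + y 4 + y 3 + y 2 + y 0 + y 1 = 0 ∧ 2 ∣ y 5 + y 4 ∧ 2 ∣ y 3 + y 2 ∧
        2 ∣ y 4 + y 2 + y 1
      omega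
    · rw [mem] at hy
      simp [eq6, g4] at e
      omega
    · simp [mem]
    · subst hk
      funext i
      fin_cases i <;> simp [g4] <;> ring

end Pool.Agent.MP_db5b97_nt.H66
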