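import Pool.Agent.MP_db5b97_nt.H66.Spec

/-! A permutation is a Frobenius on points over a finite field. -/

namespace Pool.Agent.MP_db5b97_nt.H66

open Equiv

namespace RFF

theorem key (K L : Type) [Field K] [Fintype K] [Field L] [Algebra K L] [Finite L] (n : ℕ)
    (g : Perm (Fin n)) (c : Fin n → K) (hc : Function.Injective c)
    (ho : Module.finrank K L = orderOf g) :
    ∃ x : Fin n → L, Function.Injective x ∧ ∀ j, x (g j) = x j ^ Fintype.card K := by
  classical
  obtain ⟨b, hb⟩ := exists_linearIndependent_algEquiv_apply K L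
  set φ := FiniteField.frobeniusAlgEquivOfAlgebraic K L with hφ
  have hgen : ∀ σ : L ≃ₐ[K] L, σ ∈ Subgroup.zpowers φ := by
    intro σ
    obtain ⟨k, hk⟩ := (FiniteField.bijective_frobeniusAlgEquivOfAlgebraic_pow K L).2 σ
    exact ⟨(k.1 : ℤ), by simpa using hk⟩
  have hd : orderOf g ∣ orderOf φ := by
    rw [hφ, FiniteField.orderOf_frobeniusAlgEquivOfAlgebraic, ho]
  set ψ := monoidHomOfForallMemZpowers hgen hd with hψ
  have hψφ : ψ φ = g := monoidHomOfForallMemZpowers_apply_gen hgen hd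
  refine ⟨fun j => ∑ σ : L ≃ₐ[K] L, c ((ψ σ)⁻¹ j) • σ b, ?_, ?_⟩
  · intro i j hij
    have h0 : ∑ σ : L ≃ₐ[K] L, (c ((ψ σ)⁻¹ i) - c ((ψ σ)⁻¹ j)) • σ b = 0 := by
      simp only [sub_smul, Finset.sum_sub_distrib]
      exact sub_eq_zero.mpr hij
    have h1 := Fintype.linearIndependent_iff.mp hb _ h0 1
    rw [map_one, inv_one] at h1
    exact hc (sub_eq_zero.mp h1)
  · intro j
    have h2 : ∀ y : L, y ^ Fintype.card K = φ y := fun y => rfl
    rw [h2, map_sum]
    refine (Fintype.sum_equiv (Equiv.mulLeft φ) _ _ fun σ => ?_).symm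
    rw [map_smul, Equiv.coe_mulLeft, map_mul, hψφ, mul_inv_rev, Perm.mul_apply]
    simp

end RFF

theorem rowFF : RowFF := by
  intro n p hp g hn
  have ho : orderOf g ≠ 0 := (orderOf_pos g).ne'
  have hc : Function.Injective fun j : Fin n => ((j : ℕ) : ZMod p) := by
    intro i j hij
    have h := congrArg ZMod.val hij
    simp only [ZMod.val_natCast] at h
    rw [Nat.mod_eq_of_lt (lt_of_lt_of_le i.2 hn), Nat.mod_eq_of_lt (lt_of_lt_of_le j.2 hn)] at h
    exact Fin.ext h
  obtain ⟨x, hx, hg⟩ := RFF.key (ZMod p) (GaloisField p (orderOf g)) n g _ hc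
    (GaloisField.finrank p ho)
  let f : GaloisField p (orderOf g) →ₐ[ZMod p] AlgebraicClosure (ZMod p) := IsAlgClosed.lift
  refine ⟨fun j => f (x j), f.toRingHom.injective.comp hx, fun j => ?_⟩
  simp only [hg, ZMod.card, map_pow]

end Pool.Agent.MP_db5b97_nt.H66
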