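import Pool.Agent.MP_db5b97_nt.H66.Spec

/-! From indices of subgroups to degrees of fields. -/

namespace Pool.Agent.MP_db5b97_nt.H66

open H58 IntermediateField

theorem rowIDX : RowIDX := by
  intro ι _ A U F L b hU hF hb
  rw [← IntermediateField.inf_relrank_right F L]
  set F' : IntermediateField ℚ Qb := F ⊓ L with hF'
  have hle : F' ≤ L := inf_le_right
  by_cases hfin : IntermediateField.relrank F' L < Cardinal.aleph0
  swap
  · rw [Cardinal.toENat_eq_top.2 (not_lt.1 hfin)]
    exact le_top
  have hE : F' ≤ adjoin ℚ (Set.range A) := by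
    intro x hx
    rw [← InfiniteGalois.fixedField_fixingSubgroup (adjoin ℚ (Set.range A)),
      IntermediateField.mem_fixedField_iff]
    intro τ hτ
    refine hF τ (hU τ fun j => ?_) x hx.1
    exact (IntermediateField.mem_fixingSubgroup_iff _ _).1 hτ _
      (subset_adjoin ℚ _ ⟨j, rfl⟩)
  haveI hfE : FiniteDimensional ℚ (adjoin ℚ (Set.range A)) :=
    finiteDimensional_adjoin fun x _ => (Algebra.IsIntegral.isIntegral (R := ℚ) x)
  haveI hfF : FiniteDimensional ℚ F' :=
    FiniteDimensional.of_injective (inclusion hE).toLinearMap (inclusion_injective hE)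
  have hpos : 0 < Module.finrank ℚ F' := Module.finrank_pos
  have h1 := IntermediateField.finrank_bot_mul_relfinrank hle
  have hfx : L.fixingSubgroup ≤ F'.fixingSubgroup := fun τ hτ =>
    (IntermediateField.mem_fixingSubgroup_iff _ _).2 fun x hx =>
      (IntermediateField.mem_fixingSubgroup_iff _ _).1 hτ x (hle hx)
  have h2 := Subgroup.relIndex_mul_index hfx
  rw [← finrank_eq_fixingSubgroup_index, ← finrank_eq_fixingSubgroup_index,
    ← h1, mul_comm] at h2
  have h3 := Nat.eq_of_mul_eq_mul_left hpos h2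
  obtain ⟨k, hk⟩ := Cardinal.lt_aleph0.1 hfin
  have h4 : IntermediateField.relfinrank F' L = k := by
    rw [IntermediateField.relfinrank_eq_toNat_relrank, hk, Cardinal.toNat_natCast]
  have hk0 : k ≠ 0 := by
    rintro rfl
    have h5 := IntermediateField.rank_bot_mul_relrank hle
    rw [hk, Nat.cast_zero, mul_zero] at h5
    exact (rank_pos (R := ℚ) (M := L)).ne h5
  have hUF : U ≤ F'.fixingSubgroup := fun τ hτ =>
    (IntermediateField.mem_fixingSubgroup_iff _ _).2 fun x hx => hF τ hτ x hx.1
  have h6 : L.fixingSubgroup.relIndex F'.fixingSubgroup ≠ 0 := by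
    rw [h3, h4]; exact hk0
  have h7 := Subgroup.relIndex_le_of_le_right hUF h6
  have h8 := hb fun h => h6 (Subgroup.relIndex_eq_zero_of_le_right hUF h)
  rw [hk, Cardinal.toENat_nat]
  exact_mod_cast h8.trans (h7.trans (h3.trans h4).le)

end Pool.Agent.MP_db5b97_nt.H66
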