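import Pool.Agent.MP_db5b97_nt.H66.Spec

/-! A subgroup of a finite group that meets every conjugacy class is the whole group. -/

namespace Pool.Agent.MP_db5b97_nt.H66

open MulAction

theorem rowJOR : RowJOR := by
  intro G _ _ H h
  classical
  let _ : Fintype G := Fintype.ofFinite G
  let _ : Fintype (G ⧸ H) := Fintype.ofFinite _
  let _ : ∀ a : G, Fintype (fixedBy (G ⧸ H) a) := fun a => Fintype.ofFinite _
  let _ : Fintype (Quotient (orbitRel G (G ⧸ H))) := Fintype.ofFinite _
  have hb := MulAction.sum_card_fixedBy_eq_card_orbits_mul_card_group G (G ⧸ H)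
  have h1 : Fintype.card (Quotient (orbitRel G (G ⧸ H))) ≤ 1 := by
    rw [Fintype.card_le_one_iff]
    intro a b
    induction a using Quotient.inductionOn with
    | h a =>
      induction b using Quotient.inductionOn with
      | h b =>
        obtain ⟨g, hg⟩ := MulAction.exists_smul_eq G b a
        exact Quotient.sound ⟨g, hg⟩
  have hpos : ∀ a : G, 1 ≤ Fintype.card (fixedBy (G ⧸ H) a) := by
    intro a
    obtain ⟨e, he⟩ := h a
    refine Fintype.card_pos_iff.2 ⟨⟨((e⁻¹ : G) : G ⧸ H), ?_⟩⟩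
    rw [mem_fixedBy]
    change ((a * e⁻¹ : G) : G ⧸ H) = ((e⁻¹ : G) : G ⧸ H)
    rw [eq_comm, QuotientGroup.eq]
    simpa [mul_assoc] using he
  have hone : Fintype.card (fixedBy (G ⧸ H) (1 : G)) ≤ 1 := by
    by_contra hlt
    have hs : ∑ _a : G, 1 < ∑ a : G, Fintype.card (fixedBy (G ⧸ H) a) :=
      Finset.sum_lt_sum (fun a _ => hpos a) ⟨1, Finset.mem_univ _, by omega⟩
    rw [hb] at hs
    simp only [Finset.sum_const, Finset.card_univ, smul_eq_mul, mul_one] at hs
    have := Nat.mul_le_mul_right (Fintype.card G) h1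
    omega
  rw [Fintype.card_le_one_iff] at hone
  rw [eq_top_iff]
  intro g _
  have hg := hone ⟨((1 : G) : G ⧸ H), by simp⟩ ⟨(g : G ⧸ H), by simp⟩
  have hq : ((1 : G) : G ⧸ H) = (g : G ⧸ H) := congrArg Subtype.val hg
  rw [QuotientGroup.eq] at hq
  simpa using hq

end Pool.Agent.MP_db5b97_nt.H66
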