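import Pool.Agent.MP_db5b97_nt.H66.Spec

/-! A linear map intertwining two maps of the shape is monomial. -/

namespace Pool.Agent.MP_db5b97_nt.H66

open MvPolynomial Matrix Equiv H58 H31

namespace Mono

variable {ι : Type} [Fintype ι] [DecidableEq ι] {d : ℕ} {A A' : ι → Qb}
  {K K' : MvPolynomial ι Qb} {η : Matrix ι ι Qb} {c : Qb}

omit [DecidableEq ι] in
theorem ev (d : ℕ) (A : ι → Qb) (K : MvPolynomial ι Qb) (w : ι → Qb) (j : ι) :
    eval w (sh d A K j) = A j * w j ^ d + w j * ((∏ l, w l) * eval w K) := by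
  simp [sh]

theorem third (h3 : 3 ≤ Fintype.card ι) (a b : ι) : ∃ l, l ≠ a ∧ l ≠ b := by
  have : ({a, b} : Finset ι).card < (Finset.univ : Finset ι).card :=
    lt_of_le_of_lt Finset.card_le_two h3
  obtain ⟨l, -, hl⟩ := Finset.exists_mem_notMem_of_card_lt_card this
  exact ⟨l, by simpa using hl⟩

theorem one (h3 : 3 ≤ Fintype.card ι) (hd : 2 ≤ d) (hA : ∀ j, A j ≠ 0)
    (h : ∀ w, η *ᵥ (fun j => eval w (sh d A K j)) =
      c • fun j => eval (η *ᵥ w) (sh d A' K' j))
    {j a b : ι} (ha : η j a ≠ 0) (hb : η j b ≠ 0) : a = b := by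
  by_contra hab
  obtain ⟨l₀, la, lb⟩ := third h3 a b
  obtain ⟨e, rfl⟩ := Nat.exists_eq_add_of_le hd
  obtain ⟨W, hW⟩ : ∃ W : ι → Polynomial Qb, W = fun l => Polynomial.C (η l a / η j a) *
    (1 + Polynomial.X) - Polynomial.C (η l b / η j b) := ⟨_, rfl⟩
  have key : Polynomial.C (η j a * A a / η j a ^ (2 + e)) * (1 + Polynomial.X) ^ (2 + e) +
      Polynomial.C (η j b * (A b * (-1 / η j b) ^ (2 + e))) = Polynomial.X ^ 2 *
        (Polynomial.C c * (Polynomial.C (A' j) * Polynomial.X ^ e +
          (∏ l ∈ Finset.univ.erase j, W l) * aeval W K')) := by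
    refine Polynomial.funext fun T => ?_
    obtain ⟨w, hw⟩ : ∃ w : ι → Qb, w = Pi.single a ((1 + T) / η j a) +
      Pi.single b (-1 / η j b) := ⟨_, rfl⟩
    have w0 : ∏ l, w l = 0 := Finset.prod_eq_zero (Finset.mem_univ l₀) (by simp [hw, la, lb])
    have w1 : η *ᵥ w = fun l => (W l).eval T := funext fun l => by
      simp only [hw, hW, mulVec_add, mulVec_single, Pi.add_apply, Pi.smul_apply, col_apply,
        MulOpposite.smul_eq_mul_unop, MulOpposite.unop_op, Polynomial.eval_sub,
        Polynomial.eval_mul, Polynomial.eval_C, Polynomial.eval_add, Polynomial.eval_one,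
        Polynomial.eval_X]
      ring
    have w2 : (W j).eval T = T := by simp [hW, ha, hb]
    have w3 : (fun l => eval w (sh (2 + e) A K l)) = Pi.single a (A a * ((1 + T) / η j a) ^
        (2 + e)) + Pi.single b (A b * (-1 / η j b) ^ (2 + e)) := funext fun l => by
      rw [ev, w0, zero_mul, mul_zero, add_zero, hw]
      by_cases h1 : l = a
      · subst h1
        simp [hab]
      by_cases h2 : l = b
      · subst h2
        simp [h1]
      simp [h1, h2]
    have w4 : (aeval W K').eval T = eval (fun l => (W l).eval T) K' := by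
      have := DFunLike.congr_fun (comp_aeval W (Polynomial.aeval T)) K'
      simpa [Polynomial.coe_aeval_eq_eval, aeval_eq_eval] using this
    have := congrFun (h w) j
    rw [w3, w1, Pi.smul_apply, ev, ← Finset.mul_prod_erase _ _ (Finset.mem_univ j), w2] at this
    simp only [mulVec_add, mulVec_single, Pi.add_apply, Pi.smul_apply, col_apply,
      MulOpposite.smul_eq_mul_unop, MulOpposite.unop_op, smul_eq_mul] at this
    simp only [Polynomial.eval_mul, Polynomial.eval_C, Polynomial.eval_add, Polynomial.eval_one,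
      Polynomial.eval_X, Polynomial.eval_pow, Polynomial.eval_prod, w4]
    rw [div_pow] at this
    linear_combination this
  have k1 := congrArg (fun p => Polynomial.coeff p 1) key
  simp only [Polynomial.coeff_add, Polynomial.coeff_C_mul, Polynomial.coeff_one_add_X_pow,
    Polynomial.coeff_X_pow_mul', Polynomial.coeff_C_succ, Nat.choose_one_right, add_zero] at k1
  rw [if_neg (by norm_num)] at k1
  exact mul_ne_zero (div_ne_zero (mul_ne_zero ha (hA a)) (pow_ne_zero _ ha))
    (Nat.cast_ne_zero.2 (by omega)) k1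

end Mono

theorem rowMONO : RowMONO := by
  intro ι _ _ d A A' K K' η c h3 hd hu hA h
  obtain ⟨u, rfl⟩ := hu
  have r1 : ∀ j, ∃ l, u.val j l ≠ 0 := fun j => by
    by_contra hn
    have := congrFun (congrFun u.mul_inv j) j
    simp only [not_exists, not_not] at hn
    simp [mul_apply, hn] at this
  have r2 : ∀ l, ∃ j, u.val j l ≠ 0 := fun l => by
    by_contra hn
    have := congrFun (congrFun u.inv_mul l) l
    simp only [not_exists, not_not] at hn
    simp [mul_apply, hn] at this
  choose μ hμ using r1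
  have su : Function.Surjective μ := fun l => by
    obtain ⟨j, hj⟩ := r2 l
    exact ⟨j, Mono.one h3 hd hA h (hμ j) hj⟩
  have bj := Finite.surjective_iff_bijective.1 su
  have e1 : ∀ j l, u.val j l = if l = μ j then u.val j (μ j) else 0 := fun j l => by
    split_ifs with hl
    · rw [hl]
    · by_contra hn
      exact hl (Mono.one h3 hd hA h hn (hμ j))
  have e2 : ∀ w : ι → Qb, u.val *ᵥ w = fun j => u.val j (μ j) * w (μ j) := fun w =>
    funext fun j => Finset.sum_eq_single (μ j) (fun l _ hl =>
      mul_eq_zero_of_left ((e1 j l).trans (if_neg hl)) _) fun hn => absurd (Finset.mem_univ _) hn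
  obtain ⟨e, rfl⟩ := Nat.exists_eq_add_of_le' (le_trans one_le_two hd)
  have e3 : ∀ j, A (μ j) = c * A' j * u.val j (μ j) ^ e := fun j => by
    obtain ⟨l, la, -⟩ := Mono.third h3 j j
    have lb : μ l ≠ μ j := fun hh => la (bj.1 hh)
    have := congrFun (h (Pi.single (μ j) 1)) j
    simp only [e2, Pi.smul_apply, Mono.ev] at this
    rw [Finset.prod_eq_zero (Finset.mem_univ (μ l)) (by simp [lb]),
      Finset.prod_eq_zero (Finset.mem_univ l) (by simp [lb])] at this
    simp only [Pi.single_eq_same, smul_eq_mul] at this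
    refine mul_left_cancel₀ (hμ j) ?_
    linear_combination this
  refine ⟨Equiv.ofBijective μ bj, fun j => u.val j (μ j), hμ, e1, e3, fun w hw => ?_⟩
  obtain ⟨j⟩ : Nonempty ι := Fintype.card_pos_iff.1 (by omega)
  have := congrFun (h w) j
  simp only [e2, Pi.smul_apply, Mono.ev, e3, smul_eq_mul] at this
  simp only [map_mul, map_prod, eval_X, Equiv.ofBijective_apply]
  refine mul_left_cancel₀ (mul_ne_zero (hμ j) (hw (μ j))) ?_
  linear_combination this

end Pool.Agent.MP_db5b97_nt.H66
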