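import Pool.Agent.MP_db5b97_nt.H66.Spec

/-! A rational multiple of the perturbation gives a morphism. -/

namespace Pool.Agent.MP_db5b97_nt.H66

open MvPolynomial H58 H31

namespace MORx

theorem scale {ι : Type} [Fintype ι] {p : MvPolynomial ι Qb} {n : ℕ} (h : p.IsHomogeneous n)
    (c : Qb) (x : ι → Qb) : eval (fun j => c * x j) p = c ^ n * eval x p := by
  rw [eval_eq', eval_eq', Finset.mul_sum]
  refine Finset.sum_congr rfl fun m hm => ?_
  have e : ∑ i, m i = n := by
    have := h (mem_support_iff.1 hm)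
    rw [← this, Finsupp.weight_apply, Finsupp.sum_fintype _ _ (by simp)]
    simp
  simp only [mul_pow, Finset.prod_mul_distrib, Finset.prod_pow_eq_pow_sum, e]
  ring

theorem fin {a b : Qb} {n : ℕ} (ha : a ≠ 0) (hn : 0 < n) : {t : Qb | a * t ^ n = b}.Finite := by
  classical
  refine (Polynomial.nthRoots n (b / a)).toFinset.finite_toSet.subset fun t ht => ?_
  rw [Finset.mem_coe, Multiset.mem_toFinset, Polynomial.mem_nthRoots hn, eq_div_iff ha, mul_comm]
  exact ht

end MORx

open MORx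

theorem rowMOR : RowMOR := by
  intro ι _ d A K hd hA hH
  rcases isEmpty_or_nonempty ι with h | ⟨⟨j₀⟩⟩
  · exact ⟨1, one_ne_zero, fun x _ => Subsingleton.elim _ _⟩
  obtain ⟨n, rfl⟩ : ∃ n, d = n + 1 := ⟨d - 1, by omega⟩
  rw [Nat.add_sub_cancel] at hH
  have f1 : {x : ι → Qb | ∀ j, x j ∈ {t : Qb | A j * t ^ n = A j₀}}.Finite :=
    Set.Finite.pi' fun j => fin (hA j) (by omega)
  have f2 := ((f1.image fun x => -A j₀ / eval x ((∏ l, X l) * K)).insert 0).preimage
    (f := fun q : ℚ => (q : Qb)) Rat.cast_injective.injOn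
  obtain ⟨ε, hε⟩ := f2.exists_notMem
  simp only [Set.mem_preimage, Set.mem_insert_iff, not_or, Rat.cast_eq_zero] at hε
  refine ⟨ε, hε.1, fun x hx => ?_⟩
  have e : ∀ j, x j * (A j * x j ^ n + ε * eval x ((∏ l, X l) * K)) = 0 := fun j => by
    rw [← hx j]
    simp only [sh, map_add, map_mul, map_pow, eval_C, eval_X]
    ring
  by_cases z : ∃ l, x l = 0
  · obtain ⟨l, hl⟩ := z
    have k : eval x ((∏ l, X l) * K) = 0 := by
      rw [map_mul, map_prod, Finset.prod_eq_zero (Finset.mem_univ l) (by simpa using hl), zero_mul]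
    funext j
    have := e j
    rw [k, mul_zero, add_zero] at this
    rcases mul_eq_zero.1 this with a | a
    · exact a
    · exact pow_eq_zero_iff (by omega : n ≠ 0) |>.1 ((mul_eq_zero.1 a).resolve_left (hA j))
  · rw [not_exists] at z
    have e' := fun j => (mul_eq_zero.1 (e j)).resolve_left (z j)
    have s := scale hH (x j₀)⁻¹ x
    have p : (x j₀)⁻¹ ^ n * x j₀ ^ n = 1 := by rw [← mul_pow, inv_mul_cancel₀ (z j₀), one_pow]
    have k : A j₀ = -ε * eval (fun j => (x j₀)⁻¹ * x j) ((∏ l, X l) * K) := by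
      rw [s]
      linear_combination (x j₀)⁻¹ ^ n * e' j₀ - A j₀ * p
    refine absurd ⟨fun j => (x j₀)⁻¹ * x j, fun j => ?_, ?_⟩ hε.2
    · change A j * ((x j₀)⁻¹ * x j) ^ n = A j₀
      rw [k, s, mul_pow]
      linear_combination (x j₀)⁻¹ ^ n * e' j
    · have ne : eval (fun j => (x j₀)⁻¹ * x j) ((∏ l, X l) * K) ≠ 0 := fun a =>
        hA j₀ (by rw [k, a, mul_zero])
      change -A j₀ / _ = _
      rw [div_eq_iff ne]
      linear_combination -k

end Pool.Agent.MP_db5b97_nt.H66
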