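import Pool.Agent.MP_db5b97_nt.H66.Spec

/-! Transfer and valuation. -/

namespace Pool.Agent.MP_db5b97_nt.H66

open Equiv H58 H31

namespace OBSx

theorem val_prod {κ : Type} (P : Qb → Prop) (w : Qb → ℤ) (h1 : P 1)
    (hm : ∀ a b, P a → P b → P (a * b)) (hw : ∀ a b, P a → P b → w (a * b) = w a + w b)
    (s : Finset κ) (f : κ → Qb) (hf : ∀ i ∈ s, P (f i)) :
    P (∏ i ∈ s, f i) ∧ w (∏ i ∈ s, f i) = ∑ i ∈ s, w (f i) := by
  classical
  induction s using Finset.induction_on with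
  | empty =>
    have := hw 1 1 h1 h1
    rw [one_mul] at this
    exact ⟨by simpa using h1, by simp; omega⟩
  | insert a s ha ih =>
    have h2 := ih fun i hi => hf i (Finset.mem_insert_of_mem hi)
    have h3 := hf a (Finset.mem_insert_self a s)
    rw [Finset.prod_insert ha, Finset.sum_insert ha]
    exact ⟨hm _ _ h3 h2.1, by rw [hw _ _ h3 h2.1, h2.2]⟩

theorem val_pow (P : Qb → Prop) (w : Qb → ℤ) (h1 : P 1)
    (hm : ∀ a b, P a → P b → P (a * b)) (hw : ∀ a b, P a → P b → w (a * b) = w a + w b)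
    (a : Qb) (ha : P a) (n : ℕ) : P (a ^ n) ∧ w (a ^ n) = n * w a := by
  have := val_prod P w h1 hm hw (Finset.range n) (fun _ => a) fun _ _ => ha
  simpa using this

theorem zp_sum {ι κ : Type} [Fintype ι] (v : ι → Qb) (hv : ∀ x, v x ≠ 0) (s : Finset κ)
    (y : κ → ι → ℤ) : ∏ i ∈ s, zp v (y i) = zp v (∑ i ∈ s, y i) := by
  classical
  induction s using Finset.induction_on with
  | empty => simp [zp]
  | insert a s ha ih =>
    rw [Finset.prod_insert ha, Finset.sum_insert ha, ih]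
    simp only [zp, Pi.add_apply]
    rw [← Finset.prod_mul_distrib]
    exact Finset.prod_congr rfl fun x _ => (zpow_add₀ (hv x) _ _).symm

end OBSx

open OBSx in
theorem rowOBS : RowOBS := by
  intro ι Θ U _ _ _ _ j π H Y D o θ u ρ v w σ q₀ m hH ho hY hθ hρ hu hju hker hv hR hw hσ hq
    hw1 hw0 hm hsum
  classical
  haveI : H.FiniteIndex := ⟨hH⟩
  letI : Fintype (U ⧸ H) := H.fintypeQuotientOfFiniteIndex
  set act : U → (ι → ℤ) → ι → ℤ := fun g y => y ∘ (π g).symm with hact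
  have amul : ∀ g h y, act (g * h) y = act g (act h y) := by
    intro g h y
    funext x
    simp [hact, Perm.mul_def]
  have aone : ∀ y, act 1 y = y := by
    intro y
    funext x
    simp [hact, Perm.one_def]
  have aker : ∀ g y, π g = 1 → act g y = y := by
    intro g y hg
    funext x
    simp [hact, hg, Perm.one_def]
  set R : (ι → ℤ) → Qb := fun y => (∏ q, ρ q ^ θ q y) * zp v y with hRd
  have R0 : ∀ y, R y ≠ 0 := fun y =>
    mul_ne_zero (Finset.prod_ne_zero_iff.2 fun q _ => pow_ne_zero _ (hρ q))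
      (Finset.prod_ne_zero_iff.2 fun x _ => zpow_ne_zero _ (hv x))
  have hR' : ∀ h ∈ H, ∀ y ∈ Y, j h (R y) = R (act h y) := hR
  have hY' : ∀ g, ∀ y ∈ Y, act g y ∈ Y := hY
  have hθ' : ∀ g q, ∀ y ∈ Y, θ (g • q) (act g y) = θ q y := hθ
  set S : U → (ι → ℤ) → Qb := fun g y => j g (R (act g⁻¹ y)) with hS
  have SH : ∀ g, ∀ h ∈ H, ∀ y ∈ Y, S (g * h) y = S g y := by
    intro g h hh y hy
    simp only [hS]
    rw [map_mul j, AlgEquiv.mul_apply, hR' h hh _ (hY' _ _ hy), ← amul]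
    congr 3
    group
  have Sout : ∀ g : U, ∀ y ∈ Y, S (g : U ⧸ H).out y = S g y := by
    intro g y hy
    obtain ⟨h, hh⟩ := QuotientGroup.mk_out_eq_mul H g
    rw [hh, SH g h h.2 y hy]
  set T : (ι → ℤ) → Qb := fun y => ∏ t : U ⧸ H, S t.out y with hT
  have Teq : ∀ g, ∀ y ∈ Y, j g (T y) = T (act g y) := by
    intro g y hy
    simp only [hT]
    rw [map_prod, ← Equiv.prod_comp (MulAction.toPerm g) fun t : U ⧸ H => S t.out (act g y)]
    refine Finset.prod_congr rfl fun t _ => ?_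
    have e1 : (MulAction.toPerm g t : U ⧸ H) = ((g * t.out : U) : U ⧸ H) := by
      rw [MulAction.toPerm_apply, ← MulAction.Quotient.mk_smul_out H g t]
      rfl
    rw [e1, Sout _ _ (hY' _ _ hy)]
    simp only [hS]
    rw [map_mul j, AlgEquiv.mul_apply, ← amul]
    congr 4
    group
  set P : Qb → Prop := fun a => a ≠ 0 ∧ ∀ g, π g = 1 → j g a = a with hP
  have P1 : P 1 := ⟨one_ne_zero, fun g _ => map_one _⟩
  have Pm : ∀ a b, P a → P b → P (a * b) := fun a b ha hb =>
    ⟨mul_ne_zero ha.1 hb.1, fun g hg => by rw [map_mul, ha.2 g hg, hb.2 g hg]⟩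
  have Pw : ∀ a b, P a → P b → w (a * b) = w a + w b := fun a b ha hb =>
    hw a b ha.1 hb.1 ha.2 hb.2
  have PT : ∀ y ∈ Y, P (T y) := fun y hy =>
    ⟨Finset.prod_ne_zero_iff.2 fun t _ => (map_ne_zero _).2 (R0 _),
      fun g hg => by rw [Teq g y hy, aker g y hg]⟩
  have Pu : ∀ q, P (u q) := fun q =>
    ⟨by rw [← hu q]; exact pow_ne_zero _ (hρ q), fun g hg => by rw [hju, hker g q hg]⟩
  have wT : ∀ i : ℕ, w (T (act (σ ^ i) m)) = w (T m) := by
    intro i
    induction i with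
    | zero => rw [pow_zero, aone]
    | succ i ih =>
      rw [pow_succ', amul, ← Teq σ _ (hY' _ _ hm), hσ _ (PT _ (hY' _ _ hm)).2, ih]
  have θq : ∀ i : ℕ, θ q₀ (act (σ ^ i) m) = θ q₀ m := by
    intro i
    induction i with
    | zero => rw [pow_zero, aone]
    | succ i ih =>
      have := hθ' σ q₀ _ (hY' (σ ^ i) _ hm)
      rw [hq] at this
      rw [pow_succ', amul, this, ih]
  have key : ∀ g : U, (∏ i ∈ Finset.range o, S g (act (σ ^ i) m)) ^ D =
      ∏ i ∈ Finset.range o, ∏ q, u q ^ θ q (act (σ ^ i) m) := by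
    intro g
    have z1 : ∑ i ∈ Finset.range o, act g⁻¹ (act (σ ^ i) m) = 0 := by
      funext x
      have := congrFun hsum ((π g⁻¹).symm x)
      simpa [hact, Finset.sum_apply] using this
    simp only [hS, hRd]
    rw [← map_prod, Finset.prod_mul_distrib, zp_sum v hv, z1]
    have z2 : zp v (0 : ι → ℤ) = 1 := by simp [zp]
    rw [z2, mul_one, ← map_pow, ← Finset.prod_pow, map_prod]
    refine Finset.prod_congr rfl fun i _ => ?_
    rw [← Finset.prod_pow, map_prod,
      ← Equiv.prod_comp (MulAction.toPerm g) fun q => u q ^ θ q (act (σ ^ i) m)]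
    refine Finset.prod_congr rfl fun q _ => ?_
    have := hθ' g q _ (hY' g⁻¹ _ (hY' (σ ^ i) _ hm))
    rw [← amul, mul_inv_cancel, aone] at this
    rw [← pow_mul, mul_comm, pow_mul, hu, map_pow, hju, MulAction.toPerm_apply, this]
  have big : (∏ i ∈ Finset.range o, T (act (σ ^ i) m)) ^ D =
      (∏ i ∈ Finset.range o, ∏ q, u q ^ θ q (act (σ ^ i) m)) ^ H.index := by
    simp only [hT]
    rw [Finset.prod_comm, ← Finset.prod_pow, Finset.prod_congr rfl fun t _ => key t.out,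
      Finset.prod_const, Finset.card_univ, H.index_eq_card, Nat.card_eq_fintype_card]
  have l1 := val_prod P w P1 Pm Pw (Finset.range o) (fun i => T (act (σ ^ i) m))
    fun i _ => PT _ (hY' _ _ hm)
  have l2 := (val_pow P w P1 Pm Pw _ l1.1 D).2
  have r0 : ∀ y, P (∏ q, u q ^ θ q y) ∧ w (∏ q, u q ^ θ q y) = θ q₀ y := by
    intro y
    have r := val_prod P w P1 Pm Pw Finset.univ (fun q => u q ^ θ q y)
      fun q _ => (val_pow P w P1 Pm Pw _ (Pu q) _).1
    refine ⟨r.1, ?_⟩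
    rw [r.2, Finset.sum_eq_single q₀]
    · rw [(val_pow P w P1 Pm Pw _ (Pu q₀) _).2, hw1, mul_one]
    · intro q _ hq'
      rw [(val_pow P w P1 Pm Pw _ (Pu q) _).2, hw0 q hq', mul_zero]
    · intro h
      exact absurd (Finset.mem_univ _) h
  have r1 := val_prod P w P1 Pm Pw (Finset.range o)
    (fun i => ∏ q, u q ^ θ q (act (σ ^ i) m)) fun i _ => (r0 _).1
  have r2 := (val_pow P w P1 Pm Pw _ r1.1 H.index).2
  rw [big, r2, r1.2, l1.2] at l2
  simp only [wT, (r0 _).2, θq, Finset.sum_const, Finset.card_range, nsmul_eq_mul] at l2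
  have ho' : (o : ℤ) ≠ 0 := Int.natCast_ne_zero.2 ho
  rw [← Int.natCast_dvd_natCast]
  refine ⟨w (T m), mul_left_cancel₀ ho' ?_⟩
  push_cast
  linear_combination l2

end Pool.Agent.MP_db5b97_nt.H66
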