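import Pool.Agent.MP_db5b97_nt.H66.Spec

/-! The decomposition group at an unramified prime. -/

namespace Pool.Agent.MP_db5b97_nt.H66

open NumberField Equiv Pointwise

namespace PL

variable {E : Type} [Field E] [NumberField E] {p : ℕ}

omit [NumberField E] in
theorem lover (hp : p.Prime) (W : Ideal (𝓞 E)) [hW : W.IsMaximal] (h : (p : 𝓞 E) ∈ W) :
    W.LiesOver (Ideal.span {(p : ℤ)}) :=
  (Ideal.liesOver_span_iff hW.ne_top (Nat.prime_iff_prime_int.1 hp)).2 (by simpa using h)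

theorem nbot (hp : p.Prime) (W : Ideal (𝓞 E)) (h : (p : 𝓞 E) ∈ W) : W ≠ ⊥ := by
  rintro rfl
  have h0 : (p : 𝓞 E) ≠ 0 := by exact_mod_cast hp.ne_zero
  exact h0 (Ideal.mem_bot.1 h)

theorem psi [Fact p.Prime] : ∃ (W : Ideal (𝓞 E)) (ψ : 𝓞 E →+* AlgebraicClosure (ZMod p)),
    W.IsMaximal ∧ (p : 𝓞 E) ∈ W ∧ ∀ a, ψ a = 0 ↔ a ∈ W := by
  have hp : p.Prime := Fact.out
  have : (Ideal.span {(p : ℤ)}).IsMaximal := Int.ideal_span_isMaximal_of_prime p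
  obtain ⟨W, hW, hl⟩ := Ideal.exists_maximal_ideal_liesOver_of_isIntegral (S := 𝓞 E)
    (Ideal.span {(p : ℤ)})
  have h : (p : 𝓞 E) ∈ W := by
    simpa using (Ideal.liesOver_span_iff hW.ne_top (Nat.prime_iff_prime_int.1 hp)).1 hl
  have : Finite (𝓞 E ⧸ W) := Ring.HasFiniteQuotients.finiteQuotient (nbot hp W h)
  have : CharP (𝓞 E ⧸ W) p := (CharP.charP_iff_prime_eq_zero hp).2 (by
    rw [← map_natCast (Ideal.Quotient.mk W), Ideal.Quotient.eq_zero_iff_mem]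
    exact h)
  let _ : Field (𝓞 E ⧸ W) := Ideal.Quotient.field W
  let _ : Algebra (ZMod p) (𝓞 E ⧸ W) := ZMod.algebra _ p
  let φ : (𝓞 E ⧸ W) →ₐ[ZMod p] AlgebraicClosure (ZMod p) := IsAlgClosed.lift
  refine ⟨W, (φ : (𝓞 E ⧸ W) →+* AlgebraicClosure (ZMod p)).comp (Ideal.Quotient.mk W), hW, h,
    fun a => ?_⟩
  rw [RingHom.comp_apply, map_eq_zero, Ideal.Quotient.eq_zero_iff_mem]

theorem frob [IsGalois ℚ E] (hp : p.Prime) (W : Ideal (𝓞 E)) [W.IsMaximal]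
    (h : (p : 𝓞 E) ∈ W) : ∃ σ : E ≃ₐ[ℚ] E, ∀ a : 𝓞 E, σ • a - a ^ p ∈ W := by
  have := lover hp W h
  have : Finite (𝓞 E ⧸ W) := Ring.HasFiniteQuotients.finiteQuotient (nbot hp W h)
  obtain ⟨g, hg⟩ := IsArithFrobAt.exists_of_isInvariant ℤ (E ≃ₐ[ℚ] E) W
  refine ⟨g, fun x => ?_⟩
  have h1 := hg x
  rwa [← Ideal.over_def W (Ideal.span {(p : ℤ)}), Int.card_ideal_quot] at h1

theorem stab (hp : p.Prime) (W : Ideal (𝓞 E)) [W.IsMaximal] (h : (p : 𝓞 E) ∈ W)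
    {τ : E ≃ₐ[ℚ] E} (hτ : ∀ a, τ • a ∈ W ↔ a ∈ W) :
    ∃ i : ℕ, ∀ a : 𝓞 E, τ • a - a ^ p ^ i ∈ W := by
  have := Fact.mk hp
  have : Finite (𝓞 E ⧸ W) := Ring.HasFiniteQuotients.finiteQuotient (nbot hp W h)
  have : CharP (𝓞 E ⧸ W) p := (CharP.charP_iff_prime_eq_zero hp).2 (by
    rw [← map_natCast (Ideal.Quotient.mk W), Ideal.Quotient.eq_zero_iff_mem]
    exact h)
  let _ : Field (𝓞 E ⧸ W) := Ideal.Quotient.field W
  let _ : Algebra (ZMod p) (𝓞 E ⧸ W) := ZMod.algebra _ p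
  let t : (𝓞 E ⧸ W) →+* (𝓞 E ⧸ W) :=
    Ideal.quotientMap W (MulSemiringAction.toRingHom _ (𝓞 E) τ) fun a ha => (hτ a).2 ha
  let t' : (𝓞 E ⧸ W) →ₐ[ZMod p] (𝓞 E ⧸ W) :=
    { t with commutes' := fun r => RingHom.congr_fun (RingHom.ext_zmod
        (t.comp (algebraMap (ZMod p) (𝓞 E ⧸ W))) (algebraMap (ZMod p) (𝓞 E ⧸ W))) r }
  obtain ⟨i, hi⟩ := (FiniteField.bijective_frobeniusAlgHom_pow (ZMod p) (𝓞 E ⧸ W)).2 t'
  refine ⟨i, fun a => Ideal.Quotient.eq.1 ?_⟩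
  have h1 : (FiniteField.frobeniusAlgHom (ZMod p) (𝓞 E ⧸ W) ^ i.1) (Ideal.Quotient.mk W a) =
      Ideal.Quotient.mk W (τ • a) := AlgHom.congr_fun hi (Ideal.Quotient.mk W a)
  rw [← h1, map_pow, AlgHom.coe_pow, FiniteField.coe_frobeniusAlgHom, pow_iterate, ZMod.card]

theorem unram [IsGalois ℚ E] (hp : p.Prime) (W : Ideal (𝓞 E)) [W.IsMaximal]
    (h : (p : 𝓞 E) ∈ W) (hI : ∀ τ : E ≃ₐ[ℚ] E, (∀ a : 𝓞 E, τ • a - a ∈ W) → τ = 1) :
    (p : 𝓞 E) ∉ W ^ 2 := by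
  have := lover hp W h
  have := Fact.mk hp
  have : (Ideal.span {(p : ℤ)}).IsMaximal := Int.ideal_span_isMaximal_of_prime p
  have h3 : W.inertia (E ≃ₐ[ℚ] E) = ⊥ := (Subgroup.eq_bot_iff_forall _).2 fun g hg => hI g hg
  have h4 := Ideal.card_inertia_eq_ramificationIdxIn (G := E ≃ₐ[ℚ] E) (Ideal.span {(p : ℤ)}) W
  rw [h3, Subgroup.card_bot, Ideal.ramificationIdxIn_eq_ramificationIdx _ W (E ≃ₐ[ℚ] E),
    ← Ideal.ramificationIdx'_eq_ramificationIdx (Ideal.span {(p : ℤ)}) W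
      (by simp [hp.ne_zero])] at h4
  intro h5
  refine (Ideal.ramificationIdx'_ne_one_iff ?_).2 ?_ h4.symm
  · rw [Ideal.map_span, Set.image_singleton, map_natCast, Ideal.span_singleton_le_iff_mem]
    exact h
  · rw [Ideal.map_span, Set.image_singleton, map_natCast, Ideal.span_singleton_le_iff_mem]
    exact h5

theorem root {R : Type} [CommRing R] [IsDomain R] {n : ℕ} (P : Polynomial ℤ) (A : Fin n → R)
    (hA : P.map (Int.castRingHom R) = ∏ j, (Polynomial.X - Polynomial.C (A j))) (a : R) :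
    P.eval₂ (Int.castRingHom R) a = 0 ↔ ∃ j, a = A j := by
  rw [← Polynomial.eval_map, hA, Polynomial.eval_prod, Finset.prod_eq_zero_iff]
  simp [sub_eq_zero]

theorem tr {R S : Type} [CommRing R] [CommRing S] (f : R →+* S) (P : Polynomial ℤ) (a : R) :
    P.eval₂ (Int.castRingHom S) (f a) = f (P.eval₂ (Int.castRingHom R) a) := by
  rw [Polynomial.hom_eval₂, RingHom.ext_int (f.comp (Int.castRingHom R)) (Int.castRingHom S)]

end PL

open PL in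
theorem rowPL : RowPL := by
  intro n p _ E _ _ _ P A g x hx hg hPx hPA hfix
  have hp : p.Prime := Fact.out
  obtain ⟨W, ψ, hW, hpW, hψ⟩ := psi (E := E) (p := p)
  have heq : ∀ a b, a - b ∈ W ↔ ψ a = ψ b := fun a b => by rw [← hψ, map_sub, sub_eq_zero]
  have hP2 : P.map (Int.castRingHom (AlgebraicClosure (ZMod p))) =
      ∏ j, (Polynomial.X - Polynomial.C (ψ (A j))) := by
    rw [RingHom.ext_int (Int.castRingHom _) (ψ.comp (Int.castRingHom (𝓞 E))),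
      ← Polynomial.map_map, hPA, Polynomial.map_prod]
    simp
  choose f hf using fun j => (root P _ hP2 (x j)).1 ((root P _ hPx (x j)).2 ⟨j, rfl⟩)
  have hfi : Function.Injective f := fun i j hij => hx (by rw [hf, hf, hij])
  let e : Perm (Fin n) := Equiv.ofBijective f (Finite.injective_iff_bijective.1 hfi)
  have he : ∀ j, ψ (A j) = x (e⁻¹ j) := fun j => by
    rw [hf]
    exact congrArg (fun k => ψ (A k)) (e.apply_symm_apply j).symm
  have hinj : ∀ i j, ψ (A i) = ψ (A j) → i = j := fun i j hij => by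
    rw [he, he] at hij
    exact e⁻¹.injective (hx hij)
  have hperm : ∀ (τ : E ≃ₐ[ℚ] E) j, ∃ k, τ • A j = A k := fun τ j => by
    refine (root P A hPA _).1 ?_
    have h1 := tr (MulSemiringAction.toRingHom _ (𝓞 E) τ) P (A j)
    rw [(root P A hPA _).2 ⟨j, rfl⟩, map_zero] at h1
    exact h1
  have hI : ∀ τ : E ≃ₐ[ℚ] E, (∀ a : 𝓞 E, τ • a - a ∈ W) → τ = 1 := fun τ hτ =>
    hfix τ fun j => by
      obtain ⟨k, hk⟩ := hperm τ j
      have h1 := (heq _ _).1 (hτ (A j))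
      rw [hk] at h1
      rw [hk, hinj _ _ h1]
  obtain ⟨σ, hσ⟩ := frob hp W hpW
  have hs : ∀ a, ψ (σ • a) = ψ a ^ p := fun a => by rw [(heq _ _).1 (hσ a), map_pow]
  have hsi : ∀ (i : ℕ) a, ψ (σ ^ i • a) = ψ a ^ p ^ i := fun i => by
    induction i with
    | zero => simp
    | succ i ih =>
      intro a
      rw [pow_succ', mul_smul, hs, ih, ← pow_mul, ← pow_succ]
  refine ⟨fun i j hij => hinj i j (by rw [hij]), W, σ, e, hW, hpW, unram hp W hpW hI,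
    fun j => ?_, fun τ => ⟨fun hτ => ?_, fun hτ a => ?_⟩⟩
  · obtain ⟨k, hk⟩ := hperm σ j
    rw [hk, hinj k ((e * g * e⁻¹) j)]
    rw [← hk, hs, he, he, ← hg]
    simp
  · obtain ⟨i, hi⟩ := stab hp W hpW hτ
    have h1 : σ ^ i * τ⁻¹ = 1 := hI _ fun a => by
      have h2 := (heq _ _).1 (hi (τ⁻¹ • a))
      rw [smul_inv_smul, map_pow] at h2
      rw [heq, mul_smul, hsi, ← h2]
    rw [← mul_inv_eq_one.1 h1]
    exact Subgroup.npow_mem_zpowers σ i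
  · obtain ⟨i, rfl⟩ := mem_powers_iff_mem_zpowers.2 hτ
    rw [← hψ, ← hψ, hsi, pow_eq_zero_iff (pow_ne_zero _ hp.ne_zero)]

end Pool.Agent.MP_db5b97_nt.H66
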