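import Pool.Agent.MP_db5b97_nt.H66.Spec

/-! Comparison of coefficients by independence of characters. -/

namespace Pool.Agent.MP_db5b97_nt.H66

open MvPolynomial H58 H31

namespace RIG

variable {ι : Type} [Fintype ι]

theorem ev (r : ℕ) (B : Finset (ι → ℤ)) (a : (ι → ℤ) → Qb)
    (hB : ∀ y ∈ B, ∀ x, 1 ≤ (r : ℤ) + y x) (w : ι → Qb) (hw : ∀ j, w j ≠ 0) :
    eval w ((∏ l, X l) * KK r B a) = (∏ x, w x) ^ r * ∑ y ∈ B, a y * zp w y := by
  simp only [KK, map_mul, map_prod, map_sum, eval_X, eval_C, map_pow, Finset.mul_sum]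
  refine Finset.sum_congr rfl fun y hy => ?_
  have h : ∀ x, w x * w x ^ ((r : ℤ) - 1 + y x).toNat = w x ^ r * w x ^ y x := by
    intro x
    have h1 := hB y hy x
    have h2 : (((r : ℤ) - 1 + y x).toNat : ℤ) + 1 = r + y x := by omega
    rw [← pow_succ', ← zpow_natCast, ← zpow_natCast, ← zpow_add₀ (hw x), Nat.cast_succ, h2]
  rw [mul_left_comm, ← Finset.prod_mul_distrib, Finset.prod_congr rfl fun x _ => h x,
    Finset.prod_mul_distrib, Finset.prod_pow, zp]
  ring

/-- the character of an exponent vector -/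
noncomputable def ch (y : ι → ℤ) : (ι → Qbˣ) →* Qb where
  toFun v := zp (fun x => (v x : Qb)) y
  map_one' := by simp [zp]
  map_mul' u v := by simp [zp, mul_zpow, Finset.prod_mul_distrib]

theorem ch_inj : Function.Injective (ch : (ι → ℤ) → _) := by
  classical
  intro y y' h
  funext x
  have h2 : (2 : Qb) ≠ 0 := two_ne_zero
  have key : ∀ z : ι → ℤ, ch z (Pi.mulSingle x (Units.mk0 2 h2)) = 2 ^ z x := by
    intro z
    change zp _ z = _
    rw [zp, Finset.prod_eq_single x]
    · simp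
    · intro b _ hb
      simp [Pi.mulSingle_eq_of_ne hb]
    · simp
  have h3 : (2 : Qb) ^ y x = 2 ^ y' x := by rw [← key, ← key, h]
  have h4 : (((2 : ℚ) ^ y x : ℚ) : Qb) = (((2 : ℚ) ^ y' x : ℚ) : Qb) := by
    simpa using h3
  exact zpow_right_injective₀ (by norm_num : (0 : ℚ) < 2) (by norm_num) (Rat.cast_injective h4)

theorem ind (B : Finset (ι → ℤ)) (b : (ι → ℤ) → Qb)
    (h : ∀ v : ι → Qb, (∀ j, v j ≠ 0) → ∑ y ∈ B, b y * zp v y = 0) : ∀ y ∈ B, b y = 0 := by
  have hl := (linearIndependent_monoidHom (ι → Qbˣ) Qb).comp _ ch_inj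
  refine linearIndependent_iff'.1 hl B b ?_
  funext v
  rw [Finset.sum_apply]
  exact h (fun x => (v x : Qb)) fun j => (v j).ne_zero

end RIG

theorem rowRIG : RowRIG := by
  intro ι _ r B a a' μ s c hB hμ hs h
  have key := RIG.ind B (fun y => a (y ∘ μ.symm) - c * (∏ x, s x) ^ r * zp s y * a' y) ?_
  · exact fun y hy => sub_eq_zero.1 (key y hy)
  intro v hv
  have h1 := h (fun l => v (μ.symm l)) fun l => hv _
  simp only [Equiv.symm_apply_apply] at h1
  rw [RIG.ev r B a hB _ fun l => hv _,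
    RIG.ev r B a' hB _ fun l => mul_ne_zero (hs l) (hv l), Equiv.prod_comp μ.symm v,
    Finset.prod_mul_distrib, mul_pow] at h1
  have hP : (∏ x, v x) ^ r ≠ 0 := pow_ne_zero _ (Finset.prod_ne_zero_iff.2 fun x _ => hv x)
  have h2 : ∑ y ∈ B, a y * zp (fun l => v (μ.symm l)) y
      = ∑ y ∈ B, a (y ∘ μ.symm) * zp v y := by
    symm
    refine Finset.sum_bij' (fun y _ => y ∘ μ.symm) (fun y _ => y ∘ μ) (fun y hy => (hμ y).1 hy)
      (fun y hy => (hμ _).2 ?_) (fun y _ => ?_) (fun y _ => ?_) fun y _ => ?_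
    · simpa [Function.comp_assoc] using hy
    · simp [Function.comp_assoc]
    · simp [Function.comp_assoc]
    · rw [zp, zp, ← Equiv.prod_comp μ.symm fun x => v x ^ y x]
      rfl
  have h3 : ∀ y, zp (fun l => s l * v l) y = zp s y * zp v y := fun y => by
    simp [zp, mul_zpow, Finset.prod_mul_distrib]
  simp only [h2, h3] at h1
  simp only [sub_mul, Finset.sum_sub_distrib]
  rw [sub_eq_zero]
  apply mul_left_cancel₀ hP
  rw [h1]
  simp only [Finset.mul_sum]
  exact Finset.sum_congr rfl fun y _ => by ring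

end Pool.Agent.MP_db5b97_nt.H66
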