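import Pool.Agent.MP_db5b97_nt.H66.Spec

/-! Valuations and equivariant uniformisers. -/

namespace Pool.Agent.MP_db5b97_nt.H66

open NumberField IsDedekindDomain WithZero

namespace Val

variable {E : Type} [Field E] [NumberField E]

lemma coe_smul (τ : E ≃ₐ[ℚ] E) (a : 𝓞 E) :
    algebraMap (𝓞 E) E (τ • a) = τ (algebraMap (𝓞 E) E a) := rfl

lemma smul_nat (τ : E ≃ₐ[ℚ] E) (n : ℕ) : τ • (n : 𝓞 E) = n :=
  map_natCast (MulSemiringAction.toRingHom (E ≃ₐ[ℚ] E) (𝓞 E) τ) n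

lemma pow_mem {W : Ideal (𝓞 E)} {τ : E ≃ₐ[ℚ] E} (h : ∀ a ∈ W, τ • a ∈ W) (n : ℕ) :
    ∀ a ∈ W ^ n, τ • a ∈ W ^ n := by
  intro a ha
  have h1 : W ≤ W.comap (MulSemiringAction.toRingHom (E ≃ₐ[ℚ] E) (𝓞 E) τ) := h
  exact Ideal.le_comap_pow _ n (Ideal.pow_right_mono h1 n ha)

lemma int_le (v : HeightOneSpectrum (𝓞 E)) {τ : E ≃ₐ[ℚ] E}
    (h : ∀ a ∈ v.asIdeal, τ • a ∈ v.asIdeal) (a : 𝓞 E) :
    v.intValuation (τ • a) ≤ v.intValuation a := by
  obtain rfl | ha := eq_or_ne a 0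
  · simp
  · have e := v.intValuation_if_neg ha
    rw [e, v.intValuation_le_pow_iff_mem]
    exact pow_mem h _ a ((v.intValuation_le_pow_iff_mem _ _).1 e.le)

lemma int_eq (v : HeightOneSpectrum (𝓞 E)) {τ : E ≃ₐ[ℚ] E}
    (h : ∀ a, τ • a ∈ v.asIdeal ↔ a ∈ v.asIdeal) (a : 𝓞 E) :
    v.intValuation (τ • a) = v.intValuation a := by
  refine le_antisymm (int_le v (fun b hb => (h b).2 hb) a) ?_
  have := int_le v (τ := τ⁻¹) (fun b hb => (h _).1 (by simpa using hb)) (τ • a)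
  simpa using this

lemma val_eq (v : HeightOneSpectrum (𝓞 E)) {τ : E ≃ₐ[ℚ] E}
    (h : ∀ a, τ • a ∈ v.asIdeal ↔ a ∈ v.asIdeal) (a : E) :
    v.valuation E (τ a) = v.valuation E a := by
  obtain ⟨x, y, -, rfl⟩ := IsFractionRing.div_surjective (A := 𝓞 E) a
  have k : ∀ z : 𝓞 E, v.valuation E (algebraMap (𝓞 E) E z) = v.intValuation z :=
    fun z => v.valuation_of_algebraMap z
  rw [map_div₀, map_div₀, map_div₀, ← coe_smul, ← coe_smul, k, k, k, k, int_eq v h, int_eq v h]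

lemma int_one (v : HeightOneSpectrum (𝓞 E)) {a : 𝓞 E} (h1 : a ∈ v.asIdeal)
    (h2 : a ∉ v.asIdeal ^ 2) : log (v.intValuation a) = -1 := by
  have ha : a ≠ 0 := by
    rintro rfl
    exact h2 (zero_mem _)
  have e := exp_log (v.intValuation_ne_zero a ha)
  have k1 := (v.intValuation_le_pow_iff_mem a 1).2 (by simpa using h1)
  have k2 := (v.intValuation_le_pow_iff_mem a 2).not.2 h2
  rw [← e, exp_le_exp] at k1 k2
  push_cast at k1 k2
  omega

lemma exists_nu {J : Type} [Fintype J] (W : Ideal (𝓞 E)) (V : J → Ideal (𝓞 E))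
    (hW : W.IsMaximal) (hV : ∀ j, (V j).IsMaximal) :
    ∃ ν ∈ W ^ 2, ∀ j, V j ≠ W → ν - 1 ∈ V j := by
  classical
  have h : (W ^ 2 ⊔ ⨅ j ∈ Finset.univ.filter (fun j => V j ≠ W), V j) = ⊤ :=
    Ideal.sup_iInf_eq_top fun j hj => Ideal.pow_sup_eq_top
      (hW.coprime_of_ne (hV j) (Finset.mem_filter.1 hj).2.symm)
  obtain ⟨ν, hν, b, hb, e⟩ := Submodule.mem_sup.1 ((Ideal.eq_top_iff_one _).1 h)
  refine ⟨ν, hν, fun j hj => ?_⟩
  have hb' : b ∈ V j := by
    simp only [Submodule.mem_iInf] at hb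
    exact hb j (Finset.mem_filter.2 ⟨Finset.mem_univ _, hj⟩)
  have : ν - 1 = -b := by rw [← e]; ring
  rw [this]
  exact neg_mem hb'

lemma prod_sub_one {J : Type} (s : Finset J) (f : J → 𝓞 E) (W : Ideal (𝓞 E))
    (h : ∀ j ∈ s, f j - 1 ∈ W) : ∏ j ∈ s, f j - 1 ∈ W := by
  rw [← Ideal.Quotient.eq, map_prod, map_one]
  exact Finset.prod_eq_one fun j hj => by
    rw [Ideal.Quotient.eq.2 (h j hj), map_one]

lemma exists_u {I : Type} [Fintype I] (p : I → ℕ) (W : I → Ideal (𝓞 E)) (σ : I → E ≃ₐ[ℚ] E)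
    (hinj : Function.Injective p) (hp : ∀ i, (p i).Prime) (hW : ∀ i, (W i).IsMaximal)
    (h1 : ∀ i, (p i : 𝓞 E) ∈ W i) (h2 : ∀ i, (p i : 𝓞 E) ∉ W i ^ 2)
    (hs : ∀ i (τ : E ≃ₐ[ℚ] E), (∀ a, τ • a ∈ W i ↔ a ∈ W i) ↔ τ ∈ Subgroup.zpowers (σ i))
    (i : I) : ∃ u : 𝓞 E, (∀ c ∈ Subgroup.zpowers (σ i), c • u = u) ∧ u ∈ W i ∧ u ∉ W i ^ 2 ∧
      ∀ k c, i ≠ k ∨ c ∉ Subgroup.zpowers (σ i) → c • u ∉ W k := by
  classical
  obtain ⟨ν, hν, hν1⟩ := exists_nu (J := I × (E ≃ₐ[ℚ] E)) (W i)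
    (fun j => (W j.1).comap (MulSemiringAction.toRingHom (E ≃ₐ[ℚ] E) (𝓞 E) j.2)) (hW i)
    (fun j => by
      have := hW j.1
      exact Ideal.comap_isMaximal_of_surjective _ fun a => ⟨j.2⁻¹ • a, by simp⟩)
  set N : 𝓞 E := ∏ c : Subgroup.zpowers (σ i), (c : E ≃ₐ[ℚ] E) • ν with hN
  have hN2 : N ∈ W i ^ 2 := by
    rw [hN, ← Finset.mul_prod_erase _ _ (Finset.mem_univ 1)]
    exact Ideal.mul_mem_right _ _ (by simpa using hν)
  have hsm : ∀ c : E ≃ₐ[ℚ] E, c • ((p i : 𝓞 E) + (1 - p i) * N) =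
      p i + (1 - p i) * ∏ c' : Subgroup.zpowers (σ i), (c * c') • ν := by
    intro c
    rw [smul_add, smul_mul', smul_sub, smul_one, smul_nat, hN, Finset.smul_prod']
    simp only [mul_smul]
  refine ⟨p i + (1 - p i) * N, fun c hc => ?_, ?_, ?_, fun k c hc => ?_⟩
  · rw [hsm, hN]
    congr 2
    exact Fintype.prod_equiv (Equiv.mulLeft (⟨c, hc⟩ : Subgroup.zpowers (σ i))) _ _ fun _ => rfl
  · exact add_mem (h1 i) (Ideal.mul_mem_left _ _ (Ideal.pow_le_self two_ne_zero hN2))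
  · intro h
    exact h2 i (by simpa using sub_mem h (Ideal.mul_mem_left _ (1 - (p i : 𝓞 E)) hN2))
  · have key : ∀ c' : Subgroup.zpowers (σ i), (c * c') • ν - 1 ∈ W k := by
      intro c'
      have hne : (W k).comap (MulSemiringAction.toRingHom (E ≃ₐ[ℚ] E) (𝓞 E) (c * c')) ≠ W i := by
        intro e
        have e' : ∀ a, (c * c') • a ∈ W k ↔ a ∈ W i := fun a => by rw [← e]; rfl
        have hik : i = k := by
          by_contra hik
          have hco : Nat.Coprime (p i) (p k) :=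
            (Nat.coprime_primes (hp i) (hp k)).2 fun h => hik (hinj h)
          have hpi : (p i : 𝓞 E) ∈ W k := by
            have := (e' _).2 (h1 i)
            rwa [smul_nat] at this
          obtain ⟨x, y, hxy⟩ := (Nat.isCoprime_iff_coprime.2 hco).map (Int.castRingHom (𝓞 E))
          apply (hW k).ne_top
          rw [Ideal.eq_top_iff_one, ← hxy]
          exact add_mem (Ideal.mul_mem_left _ _ (by simpa using hpi))
            (Ideal.mul_mem_left _ _ (by simpa using h1 k))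
        subst hik
        have := (hs i _).1 e'
        rcases hc with hc | hc
        · exact hc rfl
        · exact hc ((Subgroup.mul_mem_cancel_right _ c'.2).1 this)
      have := hν1 (k, c * c') hne
      simpa [Ideal.mem_comap, smul_sub] using this
    intro h
    have h3 := prod_sub_one Finset.univ _ (W k) fun c' _ => key c'
    rw [hsm] at h
    apply (hW k).ne_top
    rw [Ideal.eq_top_iff_one]
    have h4 := sub_mem h (Ideal.mul_mem_left _ (1 - (p i : 𝓞 E)) h3)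
    rwa [show ∀ x y : 𝓞 E, x + (1 - x) * y - (1 - x) * (y - 1) = 1 from fun x y => by ring] at h4

end Val

open Val in
theorem rowVAL : RowVAL := by
  intro E _ _ _ I _ p W σ hinj hp hW h1 h2 hs
  choose u hu0 hu1 hu2 hu3 using exists_u p W σ hinj hp hW h1 h2 hs
  let v : I → HeightOneSpectrum (𝓞 E) := fun i => ⟨W i, (hW i).isPrime, fun h => by
    have := h1 i
    rw [h, Ideal.mem_bot, Nat.cast_eq_zero] at this
    exact (hp i).ne_zero this⟩
  have k : ∀ i (z : 𝓞 E), (v i).valuation E (algebraMap (𝓞 E) E z) = (v i).intValuation z :=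
    fun i z => (v i).valuation_of_algebraMap z
  refine ⟨fun i a => -log ((v i).valuation E a), fun i c => c (algebraMap (𝓞 E) E (u i)),
    fun i a b ha hb => ?_, fun i a => ?_, fun i c => ?_, fun i c => ?_, fun i c τ => rfl,
    fun i c hc => ?_, fun i l c hc => ?_⟩
  · simp only
    rw [map_mul, log_mul (by simpa using ha) (by simpa using hb), neg_add]
  · simp only
    rw [val_eq (v i) ((hs i _).2 (Subgroup.mem_zpowers _))]
  · have : u i ≠ 0 := fun h => hu2 i (h ▸ zero_mem _)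
    simpa using this
  · simp only
    rw [AlgEquiv.mul_apply, ← coe_smul (σ i), hu0 i _ (Subgroup.mem_zpowers _)]
  · simp only
    rw [← coe_smul, hu0 i c hc, k, int_one (v i) (hu1 i) (hu2 i), neg_neg]
  · simp only
    rw [← coe_smul, k, HeightOneSpectrum.intValuation_eq_one_iff.2 (hu3 i l c hc), log_one,
      neg_zero]

end Pool.Agent.MP_db5b97_nt.H66
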