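import Pool.Agent.MP_db5b97_nt.H66.Spec

/-! A rational point off the coordinate hyperplanes. -/

namespace Pool.Agent.MP_db5b97_nt.H66

open Matrix H58 H31

namespace VEC

/-- a row of the matrix as a rational linear form -/
noncomputable def row {ι : Type} [Fintype ι] (φ : Matrix ι ι Qb) (j : ι) :
    (ι → ℚ) →ₗ[ℚ] Qb where
  toFun y := ∑ l, φ j l * (y l : Qb)
  map_add' y z := by
    simp only [Pi.add_apply, Rat.cast_add, mul_add, Finset.sum_add_distrib]
  map_smul' c y := by
    simp only [Pi.smul_apply, smul_eq_mul, Rat.cast_mul, RingHom.id_apply, Rat.smul_def,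
      Finset.mul_sum]
    exact Finset.sum_congr rfl fun l _ => by ring

theorem ker_ne_top {ι : Type} [Fintype ι] [DecidableEq ι] (φ : Matrix ι ι Qb) (h : IsUnit φ)
    (j : ι) : LinearMap.ker (row φ j) ≠ ⊤ := by
  intro hk
  have h0 : ∀ l, φ j l = 0 := by
    intro l
    have h1 : row φ j (Pi.single l 1) = 0 := by
      rw [← LinearMap.mem_ker, hk]
      exact Submodule.mem_top
    have h2 : row φ j (Pi.single l 1) = φ j l := by
      show ∑ l', φ j l' * (((Pi.single l 1 : ι → ℚ) l' : ℚ) : Qb) = φ j l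
      rw [Finset.sum_eq_single l]
      · simp
      · intro b _ hb
        simp [Pi.single_eq_of_ne hb]
      · intro hl
        exact absurd (Finset.mem_univ l) hl
    exact h2 ▸ h1
  have hd : φ.det = 0 := Matrix.det_eq_zero_of_row_eq_zero j h0
  exact ((Matrix.isUnit_iff_isUnit_det φ).1 h).ne_zero hd

end VEC

theorem rowVEC : RowVEC := by
  intro ι _ _ φ h
  obtain ⟨y, hy⟩ := Submodule.exists_forall_notMem_of_forall_ne_top
    (fun j => LinearMap.ker (VEC.row φ j)) (VEC.ker_ne_top φ h)
  exact ⟨y, fun j hj => hy j (LinearMap.mem_ker.2 hj)⟩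

end Pool.Agent.MP_db5b97_nt.H66
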