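import Pool.Agent.MP_db5b97_nt.H66.Core
import Pool.Agent.MP_db5b97_nt.H66.RAR
import Pool.Agent.MP_db5b97_nt.H66.RCH
import Pool.Agent.MP_db5b97_nt.H66.RCONJ
import Pool.Agent.MP_db5b97_nt.H66.RCRT
import Pool.Agent.MP_db5b97_nt.H66.RDESC
import Pool.Agent.MP_db5b97_nt.H66.REQV
import Pool.Agent.MP_db5b97_nt.H66.REX
import Pool.Agent.MP_db5b97_nt.H66.RFF
import Pool.Agent.MP_db5b97_nt.H66.RIDX
import Pool.Agent.MP_db5b97_nt.H66.RJOR
import Pool.Agent.MP_db5b97_nt.H66.RKK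
import Pool.Agent.MP_db5b97_nt.H66.RMONO
import Pool.Agent.MP_db5b97_nt.H66.RMOR
import Pool.Agent.MP_db5b97_nt.H66.ROBS
import Pool.Agent.MP_db5b97_nt.H66.RPL
import Pool.Agent.MP_db5b97_nt.H66.RRIG
import Pool.Agent.MP_db5b97_nt.H66.RVAL
import Pool.Agent.MP_db5b97_nt.H66.RVEC

/-! A lower bound from lattices in permutation modules: assembly. -/

namespace Pool.Agent.MP_db5b97_nt.H66

theorem allAR : AR := rowAR rowFF rowCRT rowPL rowJOR rowVAL

theorem allCORE : CORE :=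
  core rowMONO rowDESC rowCONJ rowMOR rowKK rowEQV rowRIG rowOBS rowVEC rowIDX allAR

theorem allMAIN : MAIN := rowCH allCORE

theorem twelve : (12 : ℕ∞) ≤ H31.SS 5 := rowEX allMAIN

end Pool.Agent.MP_db5b97_nt.H66
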