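import Pool.Agent.MP_db5b97_nt.H66.Spec

/-! A lower bound from lattices in permutation modules: the construction. -/

namespace Pool.Agent.MP_db5b97_nt.H66

open MvPolynomial Matrix Equiv H58 H31

namespace Co

variable {ι I : Type} [Fintype ι] [DecidableEq ι] {Γ : Subgroup (Perm ι)} (g : I → Γ)
  (ϑ : I → ι → ℤ) (D : ℕ)

/-- the index set -/
abbrev Th : Type := Σ i, Γ ⧸ Subgroup.zpowers (g i)

/-- the lattice -/
def MM : Set (ι → ℤ) :=
  {y | ∀ i, ∀ c ∈ Γ, (D : ℤ) ∣ ∑ x, ϑ i x * (y (c ((g i : Perm ι) x)) - y (c x))}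

/-- the linear forms -/
noncomputable def tz (q : Th g) (y : ι → ℤ) : ℤ := ∑ x, ϑ q.1 x * y ((q.2.out : Γ).1 x)

/-- their residues -/
noncomputable def tn (q : Th g) (y : ι → ℤ) : ℕ := (tz g ϑ q y % D).toNat

variable {g ϑ D}

omit [DecidableEq ι] in
theorem mm_smul {y : ι → ℤ} (hy : y ∈ MM g ϑ D) {c : Perm ι} (hc : c ∈ Γ) :
    y ∘ c.symm ∈ MM g ϑ D := fun i e he => hy i (c⁻¹ * e) (mul_mem (inv_mem hc) he)

omit [DecidableEq ι] in
theorem ex_pow {i : I} {h : Γ} (hh : h ∈ Subgroup.zpowers (g i)) : ∃ k : ℕ, g i ^ k = h :=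
  mem_powers_iff_mem_zpowers.2 hh

omit [DecidableEq ι] in
theorem mm_inv {y : ι → ℤ} (hy : y ∈ MM g ϑ D) (i : I) (c : Γ) {h : Γ}
    (hh : h ∈ Subgroup.zpowers (g i)) :
    ∑ x, ϑ i x * y ((c * h).1 x) ≡ ∑ x, ϑ i x * y (c.1 x) [ZMOD D] := by
  obtain ⟨k, rfl⟩ := ex_pow hh
  clear hh
  induction k with
  | zero => simp
  | succ k ih =>
    refine Int.ModEq.trans (Int.ModEq.symm (Int.modEq_iff_dvd.2 ?_)) ih
    have := hy i _ (c * g i ^ k).2
    simp only [mul_sub, Finset.sum_sub_distrib] at this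
    rw [pow_succ, ← mul_assoc]
    exact this

omit [Fintype ι] [DecidableEq ι] in
theorem out_smul (c : Γ) (q : Th g) :
    ∃ h ∈ Subgroup.zpowers (g q.1), (c • q.2).out = c * q.2.out * h := by
  obtain ⟨h, e⟩ := QuotientGroup.mk_out_eq_mul (Subgroup.zpowers (g q.1)) (c * q.2.out)
  refine ⟨h, h.2, ?_⟩
  rw [← e, ← smul_eq_mul, MulAction.Quotient.mk_smul_out]

omit [DecidableEq ι] in
theorem tn_smul {y : ι → ℤ} (hy : y ∈ MM g ϑ D) (c : Γ) (q : Th g) :
    tn g ϑ D (c • q) (y ∘ c.1.symm) = tn g ϑ D q y := by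
  obtain ⟨h, hh, e⟩ := out_smul c q
  refine congrArg Int.toNat (Eq.trans ?_ (mm_inv hy q.1 q.2.out hh))
  change (∑ x, ϑ q.1 x * y (c.1.symm ((c • q.2).out.1 x))) % _ = _
  rw [e]
  simp

omit [DecidableEq ι] in
theorem tn_cast (hD : 0 < D) (q : Th g) (y : ι → ℤ) : (tn g ϑ D q y : ℤ) = tz g ϑ q y % D :=
  Int.toNat_of_nonneg (Int.emod_nonneg _ (by exact_mod_cast hD.ne'))

omit [DecidableEq ι] in
theorem of_dvd {y : ι → ℤ} (h : ∀ x, (D : ℤ) ∣ y x) :
    y ∈ MM g ϑ D ∧ ∀ q, tn g ϑ D q y = 0 :=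
  ⟨fun _ _ _ => Finset.dvd_sum fun _ _ => ((h _).sub (h _)).mul_left _, fun q => by
    rw [tn, tz, Int.emod_eq_zero_of_dvd (Finset.dvd_sum fun _ _ => (h _).mul_left _)]
    rfl⟩

omit [DecidableEq ι] in
theorem zp_tz [Fintype (Th g)] (hD : 0 < D) {z : Th g → Qb} (hz : ∀ q, z q ^ D = 1) (y : ι → ℤ) :
    zp (fun x => ∏ q, z q ^ ϑ q.1 ((q.2.out : Γ).1.symm x)) y = ∏ q, z q ^ tn g ϑ D q y := by
  have h0 : ∀ q, z q ≠ 0 := fun q h => by simpa [h, hD.ne'] using hz q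
  simp only [zp, ← Finset.prod_zpow, ← _root_.zpow_mul]
  rw [Finset.prod_comm]
  refine Finset.prod_congr rfl fun q _ => ?_
  have h1 : ∀ k : ℤ, z q ^ (k % D) = z q ^ k := fun k => by
    conv_rhs => rw [← Int.emod_add_mul_ediv k D, zpow_add₀ (h0 q), _root_.zpow_mul,
      _root_.zpow_natCast, hz, _root_.one_zpow, mul_one]
  rw [← _root_.zpow_natCast, tn_cast hD, h1, tz,
    ← Equiv.prod_comp (q.2.out : Γ).1]
  simp only [symm_apply_apply]
  classical
  induction (Finset.univ : Finset ι) using Finset.induction_on with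
  | empty => simp
  | insert a s ha ih => rw [Finset.prod_insert ha, Finset.sum_insert ha, zpow_add₀ (h0 q), ih]

variable (ι D) in
/-- the box -/
noncomputable def bx : Finset (ι → ℤ) :=
  (Fintype.piFinset fun _ => Finset.Icc (-(D : ℤ)) D).filter fun y => ∑ x, y x = 0

theorem mem_bx {y : ι → ℤ} : y ∈ bx ι D ↔ (∀ x, |y x| ≤ D) ∧ ∑ x, y x = 0 := by
  simp [bx, abs_le]

theorem bx_perm (c : Perm ι) (y : ι → ℤ) : y ∈ bx ι D ↔ y ∘ c.symm ∈ bx ι D := by
  simp only [mem_bx, Function.comp_apply, Equiv.sum_comp c.symm y]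
  exact and_congr_left' ⟨fun h x => h _, fun h x => by simpa using h (c x)⟩

theorem bx_pos (hD : 0 < D) : ∀ y ∈ bx ι D, ∀ x, 1 ≤ ((2 * D : ℕ) : ℤ) + y x := fun y hy x => by
  have := abs_le.1 ((mem_bx.1 hy).1 x)
  omega

/-- rigidity -/
theorem rig {a a' : (ι → ℤ) → Qb} {μ : Perm ι} {s : ι → Qb} {c e : Qb} (he : e ≠ 0)
    (hs : ∀ x, s x ≠ 0) (ha : ∀ y, (∀ x, (D : ℤ) ∣ y x) → a y = e)
    (ha' : ∀ y, (∀ x, (D : ℤ) ∣ y x) → a' y = e)
    (h : ∀ y ∈ bx ι D, a (y ∘ μ.symm) = c * (∏ x, s x) ^ (2 * D) * zp s y * a' y) :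
    c * (∏ x, s x) ^ (2 * D) = 1 ∧ ∀ j, c * s j ^ (Fintype.card ι * (2 * D)) = 1 := by
  have h1 : ∀ y ∈ bx ι D, (∀ x, (D : ℤ) ∣ y x) → c * (∏ x, s x) ^ (2 * D) * zp s y = 1 :=
    fun y hy hd => by
      have := h y hy
      rw [ha (y ∘ μ.symm) fun x => hd _, ha' _ hd] at this
      exact (mul_eq_right₀ he).1 this.symm
  have h2 : c * (∏ x, s x) ^ (2 * D) = 1 := by
    simpa [zp] using h1 0 (by simp [mem_bx]) (by simp)
  have h3 : ∀ i k, s i ^ D = s k ^ D := fun i k => by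
    by_cases hik : i = k
    · rw [hik]
    have h4 := h1 (Pi.single i (D : ℤ) - Pi.single k (D : ℤ)) (mem_bx.2 ⟨fun x => by
      by_cases h5 : x = i
      · subst h5; simp [hik]
      · by_cases h6 : x = k
        · subst h6; simp [h5]
        · simp [h5, h6], by simp⟩) fun x => by
      simp only [Pi.sub_apply, Pi.single_apply]
      split_ifs <;> simp
    rw [h2, one_mul, zp] at h4
    have h7 : ∀ l, ∏ x, s x ^ (Pi.single l (D : ℤ) : ι → ℤ) x = s l ^ D := fun l => by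
      rw [Finset.prod_eq_single l (fun x _ hx => by simp [hx]) (by simp)]
      simp
    simp only [Pi.sub_apply, zpow_sub₀ (hs _), Finset.prod_div_distrib, h7] at h4
    exact (div_eq_one_iff_eq (pow_ne_zero _ (hs k))).1 h4
  refine ⟨h2, fun j => ?_⟩
  rw [← h2, ← Finset.prod_pow, mul_comm (Fintype.card ι), pow_mul, ← Finset.card_univ,
    ← Finset.prod_const]
  refine congrArg _ (Finset.prod_congr rfl fun k _ => ?_)
  rw [mul_comm 2, pow_mul, pow_mul, h3 j k]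

omit [DecidableEq ι] in
theorem zp_map (τ : Ga) {v s : ι → Qb} {μ : Perm ι} (h : ∀ j, τ (v j) = s j * v (μ j))
    (y : ι → ℤ) : τ (zp v y) = zp s y * zp v (y ∘ μ.symm) := by
  simp only [zp, map_prod, map_zpow₀, h, mul_zpow, Finset.prod_mul_distrib]
  rw [← Equiv.prod_comp μ fun x => v x ^ (y ∘ μ.symm) x]
  simp

end Co

open Co in
theorem core (hMONO : RowMONO) (hDESC : RowDESC) (hCONJ : RowCONJ) (hMOR : RowMOR) (hKK : RowKK)
    (hEQV : RowEQV) (hRIG : RowRIG) (hOBS : RowOBS) (hVEC : RowVEC) (hIDX : RowIDX) (hAR : AR) :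
    CORE := by
  intro N D b I _ Γ g m ϑ hN hD hm hs ho hinv hb
  classical
  obtain ⟨A, π, σ, w, u, hA, hA0, hAπ, hσ, hw1, hw2, hu0, hu1, hu2, hu3, hu4⟩ :=
    hAR (N + 1) I (fun i => g i) (by omega)
  let U : Subgroup Ga := Γ.comap π
  let p : U →* Γ := π.subgroupComap Γ
  let _ : MulAction U (Th g) := MulAction.compHom (Th g) p
  have : Fintype (Th g) := Fintype.ofFinite _
  have hsm : ∀ (τ : U) (q : Th g), τ • q = p τ • q := fun _ _ => rfl
  let uq : Th g → Qb := fun q => u q.1 (q.2.out : Γ).1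
  have hu5 : ∀ i (c h : Γ), h ∈ Subgroup.zpowers (g i) → u i (c * h).1 = u i c.1 := by
    intro i c h hh
    obtain ⟨k, rfl⟩ := ex_pow hh
    clear hh
    induction k with
    | zero => simp
    | succ k ih => rw [pow_succ, ← mul_assoc, Subgroup.coe_mul, hu1, ih]
  have huq : ∀ (τ : U) q, τ.1 (uq q) = uq (τ • q) := fun τ q => by
    obtain ⟨h, hh, e⟩ := out_smul (p τ) q
    change _ = u q.1 (p τ • q.2).out.1
    rw [e, hu5 _ _ _ hh, hu2]
    rfl
  choose ρ hρ using fun q => IsAlgClosed.exists_pow_nat_eq (uq q) hD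
  have hρ0 : ∀ q, ρ q ≠ 0 := fun q h =>
    hu0 _ _ ((hρ q).symm.trans (by rw [h, zero_pow hD.ne']))
  let a0 : (Fin (N + 1) → ℤ) → Qb := fun y =>
    if y ∈ MM g ϑ D then ∏ q, ρ q ^ tn g ϑ D q y else 0
  have hB := bx_pos (ι := Fin (N + 1)) hD
  have hB0 : ∀ y ∈ bx (Fin (N + 1)) D, ∑ x, y x = 0 := fun y hy => (mem_bx.1 hy).2
  set n := Fintype.card (Fin (N + 1)) with hn
  have hn3 : 3 ≤ n := by rw [hn, Fintype.card_fin]; omega
  have hd : 2 ≤ n * (2 * D) + 1 := Nat.succ_le_succ (Nat.mul_pos (by omega) (by omega))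
  obtain ⟨k1, k2, -, -⟩ := hKK _ (2 * D) _ a0 hB hB0
  obtain ⟨ε, hε, hmor⟩ := hMOR _ (n * (2 * D) + 1) A _ hd hA0 k1
  rw [k2] at hmor
  have hε' : (ε : Qb) ≠ 0 := by exact_mod_cast hε
  set a : (Fin (N + 1) → ℤ) → Qb := fun y => ε * a0 y with ha
  obtain ⟨-, -, k3, k4⟩ := hKK _ (2 * D) _ a hB hB0
  set f := sh (n * (2 * D) + 1) A (KK (2 * D) (bx (Fin (N + 1)) D) a) with hf
  have hmap : ∀ (τ : Ga) j, MvPolynomial.map (τ : Qb →+* Qb) (f j) =
      sh (n * (2 * D) + 1) (fun l => A (π τ l)) (KK (2 * D) (bx (Fin (N + 1)) D)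
        fun y => τ (a y)) j := fun τ j => by
    rw [hf, k3]
    simp only [RingHom.coe_coe, hAπ]
  have ha1 : ∀ y, (∀ x, (D : ℤ) ∣ y x) → a y = ε := fun y hy => by
    simp [ha, a0, (of_dvd (g := g) (ϑ := ϑ) hy).1, (of_dvd (g := g) (ϑ := ϑ) hy).2]
  refine le_iSup₂_of_le (n * (2 * D) + 1) hd (le_iSup₂_of_le f ⟨k4 A, hmor⟩
    (le_iInf₂ fun L hL => hIDX _ A U _ L b (fun τ hτ => ?_) (fun τ hτ x hx => ?_) fun hk => ?_))
  · have : π τ = 1 := Equiv.ext fun j => hA ((hAπ τ j).symm.trans (hτ j))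
    change π τ ∈ Γ
    rw [this]
    exact one_mem _
  · refine (IntermediateField.mem_fixedField_iff _ x).1 hx τ (Subgroup.subset_closure ?_)
    let z : Th g → Qb := fun q => τ (ρ q) / ρ ((⟨τ, hτ⟩ : U) • q)
    have hz : ∀ q, z q ^ D = 1 := fun q => by
      rw [div_pow, ← map_pow, hρ, hρ, ← huq ⟨τ, hτ⟩ q]
      exact div_self ((map_ne_zero τ).2 (hu0 _ _))
    let t : Fin (N + 1) → Qb := fun x => ∏ q, z q ^ ϑ q.1 ((q.2.out : Γ).1.symm x)
    have ht : ∀ x, t x ^ D = 1 := fun x => by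
      rw [← Finset.prod_pow]
      refine Finset.prod_eq_one fun q _ => ?_
      rw [← _root_.zpow_natCast, ← _root_.zpow_mul, mul_comm, _root_.zpow_mul,
        _root_.zpow_natCast, hz, _root_.one_zpow]
    have ht0 : ∀ x, t x ≠ 0 := fun x h => by simpa [h, hD.ne'] using ht x
    have ht2 : ∀ x, t x ^ (2 * D) = 1 := fun x => by rw [mul_comm, pow_mul, ht, one_pow]
    obtain ⟨φ, hφ⟩ := hCONJ N f (fun j => MvPolynomial.map (τ : Qb →+* Qb) (f j)) (π τ) t ht0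
      fun w j => by
        rw [hmap]
        refine hEQV _ _ _ _ a _ A (π τ) t hB (bx_perm _) ht0 ht2 (fun x => ?_) (fun y _ => ?_) w j
        · rw [pow_succ, mul_comm n, pow_mul, ht2, one_pow, one_mul]
        · rw [zp_tz hD hz]
          simp only [ha, map_mul, map_ratCast, a0]
          by_cases hy : y ∈ MM g ϑ D
          · rw [if_pos hy, if_pos (mm_smul hy hτ), mul_left_comm, map_prod,
              ← Equiv.prod_comp (MulAction.toPerm (⟨τ, hτ⟩ : U))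
                fun q => ρ q ^ tn g ϑ D q (y ∘ (π τ).symm), ← Finset.prod_mul_distrib]
            refine congrArg _ (Finset.prod_congr rfl fun q _ => ?_)
            have := tn_smul hy (p ⟨τ, hτ⟩) q
            rw [MulAction.toPerm_apply, hsm, show tn g ϑ D _ (y ∘ (π τ).symm) = _ from this,
              ← mul_pow, map_pow, ← hsm, div_mul_cancel₀ _ (hρ0 _)]
          · rw [if_neg hy, if_neg fun h => hy (mm_smul h (inv_mem hτ : (π τ)⁻¹ ∈ Γ) |> fun h => by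
              simpa [Function.comp_def, Perm.inv_def] using h)]
            simp
    exact ⟨φ, 1, one_ne_zero, fun i => by rw [C_1, one_mul]; exact hφ i⟩
  · obtain ⟨φ, c0, hc0, hL⟩ := hL
    obtain ⟨y0, hv⟩ := hVEC _ φ.val φ.isUnit
    refine hb _ hk fun i => ?_
    obtain ⟨o, ho0, ho⟩ := ho i
    have hσU : σ i ∈ U := by
      change π (σ i) ∈ Γ
      rw [hσ]
      exact (g i).2
    have hker : ∀ x : Qb, (∀ τ : U, (π.comp U.subtype) τ = 1 → U.subtype τ x = x) →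
        ∀ τ : Ga, π τ = 1 → τ x = x := fun x hx τ hτ =>
      hx ⟨τ, by change π τ ∈ Γ; rw [hτ]; exact one_mem _⟩ hτ
    have hmM : m i ∈ MM g ϑ D := fun k c hc => hinv k i c hc
    have hq : ∀ c : Γ ⧸ Subgroup.zpowers (g i),
        c.out ∈ Subgroup.zpowers (g i) ↔ c = ((1 : Γ) : _) := fun c => by
        rw [← QuotientGroup.out_eq' c, eq_comm, QuotientGroup.eq, QuotientGroup.out_eq']
        simp
    have hz : ∀ c : Γ, c.1 ∈ Subgroup.zpowers (g i).1 ↔ c ∈ Subgroup.zpowers (g i) := fun c =>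
      exists_congr fun k => (Subtype.coe_inj (a := g i ^ k) (b := c))
    have key := hOBS _ (Th g) U U.subtype (π.comp U.subtype) (L.fixingSubgroup.subgroupOf U)
      {y | y ∈ bx (Fin (N + 1)) D ∧ y ∈ MM g ϑ D} D o (tn g ϑ D) uq ρ _ (w i) ⟨σ i, hσU⟩
      ⟨i, ((1 : Γ) : _)⟩ (m i) hk ho0 (fun τ y hy => ⟨(bx_perm _ y).1 hy.1, mm_smul hy.2 τ.2⟩)
      (fun τ q y hy => tn_smul hy.2 (p τ) q) hρ0 hρ huq (fun τ q hτ => by
        rw [hsm, show p τ = 1 from Subtype.ext hτ, one_smul]) hv (fun τ hτ y hy => ?_)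
      (fun x y hx hy h1 h2 => hw1 i x y hx hy (hker x h1) (hker y h2))
      (fun x h1 => hw2 i x (hker x h1)) ?_ (hu3 i _ ((hz _).2 ((hq _).2 rfl))) ?_
      ⟨mem_bx.2 ⟨hm i, hs i⟩, hmM⟩ (by
        simpa only [map_pow, MonoidHom.comp_apply, Subgroup.coe_subtype, hσ] using ho)
    · have h1 : (D : ℤ) ∣ (L.fixingSubgroup.relIndex U : ℕ) *
          (tz g ϑ ⟨i, ((1 : Γ) : _)⟩ (m i) % D) := by
        rw [← tn_cast hD]
        exact_mod_cast key
      have h2 := mm_inv hmM i 1 ((hq _).2 rfl)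
      rw [one_mul] at h2
      exact ((((Int.mod_modEq _ _).trans h2).mul_left _).dvd_iff).1 h1
    · obtain ⟨η, c, h1, h2, h3⟩ := hDESC N f L φ c0 hc0 hL τ.1 hτ
      simp only [hmap] at h3
      obtain ⟨μ, s, s0, s1, s2, s3⟩ := hMONO _ _ A _ _ _ η c hn3 hd h1 hA0 h3
      have s4 := hRIG _ _ _ a _ μ s c hB (bx_perm μ) s0 s3
      obtain ⟨s5, s6⟩ := rig hε' s0 ha1 (fun y hy => by rw [ha1 y hy, map_ratCast]) s4
      obtain rfl : μ = π τ.1 := Equiv.ext fun j => hA (by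
        rw [s2, Nat.add_sub_cancel, mul_right_comm, s6, one_mul])
      have s7 := s4 y hy.1
      simp only [s5, one_mul, ha, map_mul, map_ratCast, a0, if_pos hy.2,
        if_pos (mm_smul hy.2 τ.2)] at s7
      rw [mul_left_comm] at s7
      have s8 : ∀ j, τ.1 ((φ.val *ᵥ fun l => (y0 l : Qb)) j) =
          s j * (φ.val *ᵥ fun l => (y0 l : Qb)) (π τ.1 j) := fun j => by
        have : ∀ l, τ.1 (φ.val j l) = s j * φ.val (π τ.1 j) l := fun l => by
          simpa [Matrix.mul_apply, s1] using congrFun (congrFun h2 j) l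
        simp only [mulVec, dotProduct, map_sum, map_mul, map_ratCast, this, Finset.mul_sum,
          mul_assoc]
      change τ.1 _ = (∏ q, ρ q ^ tn g ϑ D q (y ∘ (π τ.1).symm)) * zp _ (y ∘ (π τ.1).symm)
      rw [map_mul, zp_map τ.1 s8, mul_left_cancel₀ hε' s7]
      ring
    · rw [hsm, show p ⟨σ i, hσU⟩ = g i from Subtype.ext (hσ i)]
      refine congrArg (Sigma.mk i) ?_
      change g i • ((1 : Γ) : Γ ⧸ Subgroup.zpowers (g i)) = _
      rw [MulAction.Quotient.smul_mk, QuotientGroup.eq]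
      simp
    · rintro ⟨k, c⟩ hne
      refine hu4 k i _ ?_
      by_cases hki : k = i
      · subst hki
        exact Or.inr fun h => hne (congrArg _ ((hq c).1 ((hz _).1 h)))
      · exact Or.inl hki

end Pool.Agent.MP_db5b97_nt.H66
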