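import Pool.Agent.MP_db5b97_nt.H66.Spec

/-! Formal properties of the perturbation. -/

namespace Pool.Agent.MP_db5b97_nt.H66

open MvPolynomial H58 H31

namespace RKK

theorem hom {ι : Type} [Fintype ι] (r : ℕ) (B : Finset (ι → ℤ)) (a : (ι → ℤ) → Qb)
    (h1 : ∀ y ∈ B, ∀ x, 1 ≤ (r : ℤ) + y x) (h0 : ∀ y ∈ B, ∑ x, y x = 0) :
    ((∏ l, X l) * KK r B a).IsHomogeneous (Fintype.card ι * r) := by
  unfold KK
  rw [Finset.mul_sum]
  refine IsHomogeneous.sum _ _ _ fun y hy => ?_
  have e : (∏ l, X l : MvPolynomial ι Qb) * (C (a y) * ∏ x, X x ^ ((r : ℤ) - 1 + y x).toNat) =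
      C (a y) * ∏ x, X x ^ (((r : ℤ) - 1 + y x).toNat + 1) := by
    rw [mul_left_comm, ← Finset.prod_mul_distrib]
    congr 1
    exact Finset.prod_congr rfl fun x _ => by ring
  rw [e]
  have hd : ∑ x, (((r : ℤ) - 1 + y x).toNat + 1) = Fintype.card ι * r := by
    have : ((∑ x, (((r : ℤ) - 1 + y x).toNat + 1) : ℕ) : ℤ) = ∑ x, ((r : ℤ) + y x) := by
      push_cast
      refine Finset.sum_congr rfl fun x _ => ?_
      have := h1 y hy x
      rw [Int.toNat_of_nonneg (by linarith)]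
      ring
    rw [Finset.sum_add_distrib (f := fun _ : ι => (r : ℤ)), h0 y hy] at this
    simp only [Finset.sum_const, Finset.card_univ, nsmul_eq_mul, add_zero] at this
    exact_mod_cast this
  rw [← hd]
  have hp := IsHomogeneous.prod (R := Qb) Finset.univ
    (fun x : ι => (X x : MvPolynomial ι Qb) ^ (((r : ℤ) - 1 + y x).toNat + 1))
    (fun x => ((r : ℤ) - 1 + y x).toNat + 1) (fun x _ => isHomogeneous_X_pow x _)
  exact hp.C_mul _

end RKK

theorem rowKK : RowKK := by
  intro ι _ r B a h1 h0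
  have hh := RKK.hom r B a h1 h0
  refine ⟨hh, fun e => ?_, fun τ d A j => ?_, fun A j => ?_⟩
  · unfold KK
    rw [Finset.mul_sum]
    exact Finset.sum_congr rfl fun y _ => by rw [C_mul, mul_assoc]
  · simp only [sh, KK, map_add, map_mul, map_pow, map_prod, map_sum, map_C, map_X]
  · unfold sh
    refine IsHomogeneous.add ((isHomogeneous_X_pow j _).C_mul _) ?_
    rw [add_comm]
    exact (isHomogeneous_X Qb j).mul hh

end Pool.Agent.MP_db5b97_nt.H66
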