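import Pool.Agent.MP_db5b97_nt.H58.Main
import Pool.Agent.MP_db5b97_nt.H31.Defs

/-! A lower bound from lattices in permutation modules: statements of the pieces. -/

namespace Pool.Agent.MP_db5b97_nt.H66

open MvPolynomial Matrix NumberField Equiv H58 H31

/-- the absolute Galois group -/
abbrev Ga : Type := Qb ≃ₐ[ℚ] Qb

section Defs

variable {ι : Type} [Fintype ι]

/-- the shape of the maps -/
noncomputable def sh (d : ℕ) (A : ι → Qb) (K : MvPolynomial ι Qb) : ι → MvPolynomial ι Qb :=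
  fun j => C (A j) * X j ^ d + X j * ((∏ l, X l) * K)

/-- Laurent monomials -/
noncomputable def zp (w : ι → Qb) (y : ι → ℤ) : Qb := ∏ x, w x ^ y x

/-- the perturbation -/
noncomputable def KK (r : ℕ) (B : Finset (ι → ℤ)) (a : (ι → ℤ) → Qb) : MvPolynomial ι Qb :=
  ∑ y ∈ B, C (a y) * ∏ x, X x ^ ((r : ℤ) - 1 + y x).toNat

end Defs

/-- a linear map intertwining two maps of the shape is monomial -/
def RowMONO : Prop :=
  ∀ (ι : Type) [Fintype ι] [DecidableEq ι] (d : ℕ) (A A' : ι → Qb) (K K' : MvPolynomial ι Qb)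
    (η : Matrix ι ι Qb) (c : Qb), 3 ≤ Fintype.card ι → 2 ≤ d → IsUnit η → (∀ j, A j ≠ 0) →
    (∀ w, η *ᵥ (fun j => eval w (sh d A K j)) = c • fun j => eval (η *ᵥ w) (sh d A' K' j)) →
    ∃ (μ : Perm ι) (s : ι → Qb), (∀ j, s j ≠ 0) ∧ (∀ j l, η j l = if l = μ j then s j else 0) ∧
      (∀ j, A (μ j) = c * A' j * s j ^ (d - 1)) ∧
      ∀ w : ι → Qb, (∀ j, w j ≠ 0) →
        eval w ((∏ l, X l) * K) = c * eval (fun j => s j * w (μ j)) ((∏ l, X l) * K')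

/-- descent data from a field of definition -/
def RowDESC : Prop :=
  ∀ (N : ℕ) (f : Pm N) (L : IntermediateField ℚ Qb) (φ : GL (Fin (N + 1)) Qb) (a : Qb), a ≠ 0 →
    (∀ i m, coeff m (C a * conj φ f i) ∈ L) → ∀ τ ∈ L.fixingSubgroup,
    ∃ (η : Matrix (Fin (N + 1)) (Fin (N + 1)) Qb) (c : Qb), IsUnit η ∧
      φ.val.map τ = η * φ.val ∧
      ∀ w, η *ᵥ (fun j => eval w (f j)) =
        c • fun j => eval (η *ᵥ w) (MvPolynomial.map (τ : Qb →+* Qb) (f j))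

/-- monomial conjugation -/
def RowCONJ : Prop :=
  ∀ (N : ℕ) (f f' : Pm N) (κ : Perm (Fin (N + 1))) (t : Fin (N + 1) → Qb), (∀ j, t j ≠ 0) →
    (∀ (w : Fin (N + 1) → Qb) j,
      t j * eval w (f' j) = eval (fun l => t (κ.symm l) * w (κ.symm l)) (f (κ j))) →
    ∃ φ : GL (Fin (N + 1)) Qb, ∀ i, f' i = conj φ f i

/-- a rational multiple of the perturbation gives a morphism -/
def RowMOR : Prop :=
  ∀ (ι : Type) [Fintype ι] (d : ℕ) (A : ι → Qb) (K : MvPolynomial ι Qb), 2 ≤ d → (∀ j, A j ≠ 0) →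
    ((∏ l, X l) * K).IsHomogeneous (d - 1) →
    ∃ ε : ℚ, ε ≠ 0 ∧ ∀ x : ι → Qb, (∀ j, eval x (sh d A (C (ε : Qb) * K) j) = 0) → x = 0

/-- formal properties of the perturbation -/
def RowKK : Prop :=
  ∀ (ι : Type) [Fintype ι] (r : ℕ) (B : Finset (ι → ℤ)) (a : (ι → ℤ) → Qb),
    (∀ y ∈ B, ∀ x, 1 ≤ (r : ℤ) + y x) → (∀ y ∈ B, ∑ x, y x = 0) →
    ((∏ l, X l) * KK r B a).IsHomogeneous (Fintype.card ι * r) ∧
      (∀ e : Qb, C e * KK r B a = KK r B fun y => e * a y) ∧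
      (∀ (τ : Qb →+* Qb) (d : ℕ) (A : ι → Qb) (j : ι),
        MvPolynomial.map τ (sh d A (KK r B a) j) =
          sh d (fun l => τ (A l)) (KK r B fun y => τ (a y)) j) ∧
      ∀ A : ι → Qb, ∀ j, (sh (Fintype.card ι * r + 1) A (KK r B a) j).IsHomogeneous
        (Fintype.card ι * r + 1)

/-- equivariance of the map under a monomial substitution -/
def RowEQV : Prop :=
  ∀ (ι : Type) [Fintype ι] (r d : ℕ) (B : Finset (ι → ℤ)) (a a' : (ι → ℤ) → Qb) (A : ι → Qb)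
    (κ : Perm ι) (t : ι → Qb), (∀ y ∈ B, ∀ x, 1 ≤ (r : ℤ) + y x) →
    (∀ y, y ∈ B ↔ y ∘ κ.symm ∈ B) → (∀ x, t x ≠ 0) → (∀ x, t x ^ r = 1) → (∀ x, t x ^ d = t x) →
    (∀ y ∈ B, a' y = zp t y * a (y ∘ κ.symm)) → ∀ (w : ι → Qb) (j : ι),
    t j * eval w (sh d (fun l => A (κ l)) (KK r B a') j) =
      eval (fun l => t (κ.symm l) * w (κ.symm l)) (sh d A (KK r B a) (κ j))

/-- comparison of coefficients -/
def RowRIG : Prop :=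
  ∀ (ι : Type) [Fintype ι] (r : ℕ) (B : Finset (ι → ℤ)) (a a' : (ι → ℤ) → Qb) (μ : Perm ι)
    (s : ι → Qb) (c : Qb), (∀ y ∈ B, ∀ x, 1 ≤ (r : ℤ) + y x) → (∀ y, y ∈ B ↔ y ∘ μ.symm ∈ B) →
    (∀ x, s x ≠ 0) →
    (∀ w : ι → Qb, (∀ j, w j ≠ 0) → eval w ((∏ l, X l) * KK r B a) =
      c * eval (fun j => s j * w (μ j)) ((∏ l, X l) * KK r B a')) →
    ∀ y ∈ B, a (y ∘ μ.symm) = c * (∏ x, s x) ^ r * zp s y * a' y

/-- transfer and valuation -/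
def RowOBS : Prop :=
  ∀ (ι Θ U : Type) [Fintype ι] [Fintype Θ] [Group U] [MulAction U Θ] (j : U →* Ga)
    (π : U →* Perm ι) (H : Subgroup U) (Y : Set (ι → ℤ)) (D o : ℕ) (θ : Θ → (ι → ℤ) → ℕ)
    (u ρ : Θ → Qb) (v : ι → Qb) (w : Qb → ℤ) (σ : U) (q₀ : Θ) (m : ι → ℤ),
    H.index ≠ 0 → o ≠ 0 → (∀ g, ∀ y ∈ Y, y ∘ (π g).symm ∈ Y) →
    (∀ g q, ∀ y ∈ Y, θ (g • q) (y ∘ (π g).symm) = θ q y) → (∀ q, ρ q ≠ 0) →
    (∀ q, ρ q ^ D = u q) → (∀ g q, j g (u q) = u (g • q)) →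
    (∀ (g : U) (q : Θ), π g = 1 → g • q = q) →
    (∀ x, v x ≠ 0) →
    (∀ h ∈ H, ∀ y ∈ Y, j h ((∏ q, ρ q ^ θ q y) * zp v y) =
      (∏ q, ρ q ^ θ q (y ∘ (π h).symm)) * zp v (y ∘ (π h).symm)) →
    (∀ a b, a ≠ 0 → b ≠ 0 → (∀ g, π g = 1 → j g a = a) → (∀ g, π g = 1 → j g b = b) →
      w (a * b) = w a + w b) →
    (∀ a, (∀ g, π g = 1 → j g a = a) → w (j σ a) = w a) → σ • q₀ = q₀ → w (u q₀) = 1 →
    (∀ q, q ≠ q₀ → w (u q) = 0) → m ∈ Y →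
    ∑ i ∈ Finset.range o, m ∘ (π (σ ^ i)).symm = 0 → D ∣ H.index * θ q₀ m

/-- a rational point off the coordinate hyperplanes -/
def RowVEC : Prop :=
  ∀ (ι : Type) [Fintype ι] [DecidableEq ι] (φ : Matrix ι ι Qb), IsUnit φ →
    ∃ y : ι → ℚ, ∀ j, (φ *ᵥ fun l => (y l : Qb)) j ≠ 0

/-- from indices to degrees -/
def RowIDX : Prop :=
  ∀ (ι : Type) [Fintype ι] (A : ι → Qb) (U : Subgroup Ga) (F L : IntermediateField ℚ Qb) (b : ℕ),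
    (∀ τ : Ga, (∀ j, τ (A j) = A j) → τ ∈ U) → (∀ τ ∈ U, ∀ x ∈ F, τ x = x) →
    (L.fixingSubgroup.relIndex U ≠ 0 → b ≤ L.fixingSubgroup.relIndex U) →
    (b : ℕ∞) ≤ Cardinal.toENat (IntermediateField.relrank F L)

/-- a permutation is a Frobenius on points over a finite field -/
def RowFF : Prop :=
  ∀ (n p : ℕ) [Fact p.Prime] (g : Perm (Fin n)), n ≤ p →
    ∃ x : Fin n → AlgebraicClosure (ZMod p), Function.Injective x ∧ ∀ j, x (g j) = x j ^ p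

/-- an integral polynomial with prescribed reductions -/
def RowCRT : Prop :=
  ∀ (n : ℕ) (I : Type) [Fintype I] (p : I → ℕ) [∀ i, Fact (p i).Prime] (g : I → Perm (Fin n))
    (x : ∀ i, Fin n → AlgebraicClosure (ZMod (p i))), Function.Injective p →
    (∀ i j, x i (g i j) = x i j ^ p i) →
    ∃ P : Polynomial ℤ, P.Monic ∧ P.natDegree = n ∧ ∀ i,
      P.map (Int.castRingHom (AlgebraicClosure (ZMod (p i)))) =
        ∏ j, (Polynomial.X - Polynomial.C (x i j))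

/-- the decomposition group at an unramified prime -/
def RowPL : Prop :=
  ∀ (n p : ℕ) [Fact p.Prime] (E : Type) [Field E] [NumberField E] [IsGalois ℚ E]
    (P : Polynomial ℤ) (A : Fin n → 𝓞 E) (g : Perm (Fin n))
    (x : Fin n → AlgebraicClosure (ZMod p)), Function.Injective x → (∀ j, x (g j) = x j ^ p) →
    P.map (Int.castRingHom (AlgebraicClosure (ZMod p))) =
      ∏ j, (Polynomial.X - Polynomial.C (x j)) →
    P.map (Int.castRingHom (𝓞 E)) = ∏ j, (Polynomial.X - Polynomial.C (A j)) →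
    (∀ τ : E ≃ₐ[ℚ] E, (∀ j, τ • A j = A j) → τ = 1) →
    Function.Injective A ∧ ∃ (W : Ideal (𝓞 E)) (σ : E ≃ₐ[ℚ] E) (e : Perm (Fin n)), W.IsMaximal ∧
      (p : 𝓞 E) ∈ W ∧ (p : 𝓞 E) ∉ W ^ 2 ∧ (∀ j, σ • A j = A ((e * g * e⁻¹) j)) ∧
      ∀ τ : E ≃ₐ[ℚ] E, (∀ a, τ • a ∈ W ↔ a ∈ W) ↔ τ ∈ Subgroup.zpowers σ

/-- a subgroup that meets every conjugacy class -/
def RowJOR : Prop :=
  ∀ (G : Type) [Group G] [Finite G] (H : Subgroup G), (∀ g : G, ∃ e : G, e * g * e⁻¹ ∈ H) →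
    H = ⊤

/-- valuations and equivariant uniformisers -/
def RowVAL : Prop :=
  ∀ (E : Type) [Field E] [NumberField E] [IsGalois ℚ E] (I : Type) [Fintype I] (p : I → ℕ)
    (W : I → Ideal (𝓞 E)) (σ : I → E ≃ₐ[ℚ] E), Function.Injective p → (∀ i, (p i).Prime) →
    (∀ i, (W i).IsMaximal) → (∀ i, (p i : 𝓞 E) ∈ W i) → (∀ i, (p i : 𝓞 E) ∉ W i ^ 2) →
    (∀ i (τ : E ≃ₐ[ℚ] E), (∀ a, τ • a ∈ W i ↔ a ∈ W i) ↔ τ ∈ Subgroup.zpowers (σ i)) →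
    ∃ (w : I → E → ℤ) (u : I → (E ≃ₐ[ℚ] E) → E),
      (∀ i a b, a ≠ 0 → b ≠ 0 → w i (a * b) = w i a + w i b) ∧ (∀ i a, w i (σ i a) = w i a) ∧
      (∀ i c, u i c ≠ 0) ∧ (∀ i c, u i (c * σ i) = u i c) ∧
      (∀ i c (τ : E ≃ₐ[ℚ] E), τ (u i c) = u i (τ * c)) ∧
      (∀ i, ∀ c ∈ Subgroup.zpowers (σ i), w i (u i c) = 1) ∧
      ∀ i k c, i ≠ k ∨ c ∉ Subgroup.zpowers (σ i) → w k (u i c) = 0

/-- the arithmetic input -/
def AR : Prop :=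
  ∀ (n : ℕ) (I : Type) [Fintype I] (g : I → Perm (Fin n)), 2 ≤ n →
    ∃ (A : Fin n → Qb) (π : Ga →* Perm (Fin n)) (σ : I → Ga) (w : I → Qb → ℤ)
      (u : I → Perm (Fin n) → Qb), Function.Injective A ∧ (∀ j, A j ≠ 0) ∧
      (∀ τ j, τ (A j) = A (π τ j)) ∧ (∀ i, π (σ i) = g i) ∧
      (∀ i a b, a ≠ 0 → b ≠ 0 → (∀ τ, π τ = 1 → τ a = a) → (∀ τ, π τ = 1 → τ b = b) →
        w i (a * b) = w i a + w i b) ∧
      (∀ i a, (∀ τ, π τ = 1 → τ a = a) → w i (σ i a) = w i a) ∧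
      (∀ i c, u i c ≠ 0) ∧ (∀ i c, u i (c * g i) = u i c) ∧
      (∀ i c (τ : Ga), τ (u i c) = u i (π τ * c)) ∧
      (∀ i, ∀ c ∈ Subgroup.zpowers (g i), w i (u i c) = 1) ∧
      ∀ i k c, i ≠ k ∨ c ∉ Subgroup.zpowers (g i) → w k (u i c) = 0

/-- assembling the arithmetic input -/
def RowAR : Prop := RowFF → RowCRT → RowPL → RowJOR → RowVAL → AR

/-- the bound with explicit characters -/
def CORE : Prop :=
  ∀ (N D b : ℕ) (I : Type) [Fintype I] (Γ : Subgroup (Perm (Fin (N + 1)))) (g : I → Γ)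
    (m ϑ : I → Fin (N + 1) → ℤ), 2 ≤ N → 0 < D → (∀ i x, |m i x| ≤ D) → (∀ i, ∑ x, m i x = 0) →
    (∀ i, ∃ o ≠ 0, ∑ k ∈ Finset.range o, m i ∘ ((g i : Perm (Fin (N + 1))) ^ k).symm = 0) →
    (∀ i k, ∀ c ∈ Γ,
      (D : ℤ) ∣ ∑ x, ϑ i x * (m k (c ((g i : Perm (Fin (N + 1))) x)) - m k (c x))) →
    (∀ k : ℕ, k ≠ 0 → (∀ i, (D : ℤ) ∣ k * ∑ x, ϑ i x * m i x) → b ≤ k) → (b : ℕ∞) ≤ SS N

/-- the statement -/
def MAIN : Prop :=
  ∀ (N : ℕ) (M : AddSubgroup (Fin (N + 1) → ℤ)) (S : Finset ℕ), 2 ≤ N →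
    (∀ y ∈ M, ∑ x, y x = 0) →
    (∀ e ∈ S, 0 < e ∧ ∃ g : Perm (Fin (N + 1)), (∀ y ∈ M, y ∘ g ∈ M) ∧
      ∃ m ∈ M, ∀ c : ℕ, (∃ y ∈ M, c • m = y ∘ g - y) ↔ e ∣ c) →
    ((S.lcm id : ℕ) : ℕ∞) ≤ SS N

/-- choosing the characters -/
def RowCH : Prop := CORE → MAIN

/-- the example in dimension five -/
def RowEX : Prop := MAIN → (12 : ℕ∞) ≤ SS 5

end Pool.Agent.MP_db5b97_nt.H66
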